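import Pool.Agent.H93.DP.Game
set_option autoImplicit false

/-!
# Abstract objective functions and the game

If `f` is injective with exactly one local maximum on every face and `f x < f y` then some direction `i`
with `x i ≠ y i` is improving at `x` and not at `y`. Hence an abstract objective function is a strategy of
the adversary, and the winning strategy of the game is a pivot rule.
-/

namespace Pool.Agent.H93.DP

open Finset

variable {ι : Type} [DecidableEq ι]

/-- every face has exactly one sink -/
def Uso (o : (ι → Bool) → ι → Bool) : Prop :=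
  ∀ (U : Finset ι) (x : ι → Bool), ∃! y : ι → Bool,
    (∀ i, i ∉ U → y i = x i) ∧ ∀ i ∈ U, o y i = false

theorem Uso.flip_one {o : (ι → Bool) → ι → Bool} (h : Uso o) (d : ι) :
    Uso fun x i => xor (o x i) (decide (i = d)) := by
  intro U x
  by_cases hd : d ∈ U
  · -- the sinks of the two facets
    choose Y hY hY' using fun b : Bool => h (U.erase d) (Function.update x d b)
    have h1 : ∀ b, Y b d = b := by
      intro b
      rw [(hY b).1 d (by simp)]
      simp
    have h2 : ∀ b i, i ∉ U → Y b i = x i := by
      intro b i hi
      have hid : i ≠ d := fun h => hi (h ▸ hd)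
      rw [(hY b).1 i (fun h => hi (mem_of_mem_erase h))]
      simp [hid]
    have h3 : ∀ b, ∀ i ∈ U, i ≠ d → o (Y b) i = false := fun b i hi hid =>
      (hY b).2 i (mem_erase.2 ⟨hid, hi⟩)
    have h4 : ∀ y : ι → Bool, (∀ i, i ∉ U → y i = x i) → (∀ i ∈ U, i ≠ d → o y i = false) →
        y = Y (y d) := by
      intro y hy hy'
      apply hY' (y d) y
      refine ⟨fun i hi => ?_, fun i hi => hy' i (mem_of_mem_erase hi) (ne_of_mem_erase hi)⟩
      by_cases hid : i = d
      · subst hid
        simp
      · rw [hy i (fun h => hi (mem_erase.2 ⟨hid, h⟩))]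
        simp [hid]
    obtain ⟨ys, ⟨hs1, hs2⟩, hs3⟩ := h U x
    have h5 : ys = Y (ys d) := h4 ys hs1 (fun i hi _ => hs2 i hi)
    have h6 : o (Y (!(ys d))) d = true := by
      by_contra hne
      have h7 := hs3 (Y (!(ys d))) ⟨h2 _, fun i hi => ?_⟩
      · have h8 := h1 (!(ys d))
        rw [h7] at h8
        revert h8
        cases ys d <;> simp
      · by_cases hid : i = d
        · rw [hid]
          simpa using hne
        · exact h3 _ i hi hid
    refine ⟨Y (!(ys d)), ⟨h2 _, fun i hi => ?_⟩, ?_⟩
    · by_cases hid : i = d
      · subst hid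
        simp [h6]
      · simp [hid, h3 _ i hi hid]
    · rintro y ⟨hy1, hy2⟩
      have h7 : ∀ i ∈ U, i ≠ d → o y i = false := by
        intro i hi hid
        have := hy2 i hi
        simpa [hid] using this
      have h8 := h4 y hy1 h7
      have h9 : o y d = true := by
        have := hy2 d hd
        simpa using this
      have h10 : y d = !(ys d) := by
        by_contra hne
        have h11 : y d = ys d := by
          revert hne
          cases y d <;> cases ys d <;> simp
        rw [h11, ← h5] at h8
        rw [h8, hs2 d hd] at h9
        cases h9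
      rw [← h10]
      exact h8
  · obtain ⟨y, ⟨h1, h2⟩, h3⟩ := h U x
    have h4 : ∀ (z : ι → Bool), (∀ i ∈ U, xor (o z i) (decide (i = d)) = false) ↔
        ∀ i ∈ U, o z i = false := by
      intro z
      refine forall₂_congr fun i hi => ?_
      have hid : i ≠ d := fun h => hd (h ▸ hi)
      simp [hid]
    refine ⟨y, ⟨h1, (h4 y).2 h2⟩, ?_⟩
    rintro z ⟨hz1, hz2⟩
    exact h3 z ⟨hz1, (h4 z).1 hz2⟩

theorem Uso.flip_set {o : (ι → Bool) → ι → Bool} (h : Uso o) (A : Finset ι) :
    Uso fun x i => xor (o x i) (decide (i ∈ A)) := by
  induction A using Finset.induction_on with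
  | empty => simpa using h
  | insert d A hd ih =>
    have h1 := ih.flip_one d
    convert h1 using 3 with x i
    by_cases hid : i = d
    · subst hid
      simp [hd]
    · simp [hid]

/-- a face has only one source -/
theorem Uso.source {o : (ι → Bool) → ι → Bool} (h : Uso o) {U : Finset ι} {x y : ι → Bool}
    (hxy : ∀ i, i ∉ U → y i = x i) (hx : ∀ i ∈ U, o x i = true) (hy : ∀ i ∈ U, o y i = true) :
    y = x := by
  have h1 := h.flip_set U
  apply (h1 U x).unique ⟨hxy, fun i hi => ?_⟩ ⟨fun _ _ => rfl, fun i hi => ?_⟩
  · simp [hi, hy i hi]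
  · simp [hi, hx i hi]

section
variable {f : (ι → Bool) → ℝ} (hf : Function.Injective f)
include hf

theorem lt_iff_not {y : ι → Bool} {i : ι} : f (flip y i) < f y ↔ ¬ f y < f (flip y i) := by
  rw [not_lt]
  refine ⟨fun h => h.le, fun h => lt_of_le_of_ne h fun e => flip_ne_self y i (hf e)⟩

theorem OneMax.uso (h : OneMax f) : Uso fun x i => decide (f x < f (flip x i)) := by
  intro U x
  have h1 := h U x
  simp_rw [lt_iff_not hf] at h1
  simpa using h1

variable [Fintype ι]

omit hf in
theorem exists_max (U : Finset ι) (x : ι → Bool) (g : (ι → Bool) → ℝ) :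
    ∃ m : ι → Bool, (∀ i, i ∉ U → m i = x i) ∧
      ∀ z : ι → Bool, (∀ i, i ∉ U → z i = x i) → g z ≤ g m := by
  classical
  obtain ⟨m, hm, hm'⟩ := (univ.filter fun z : ι → Bool => ∀ i, i ∉ U → z i = x i).exists_max_image g
    ⟨x, by simp⟩
  refine ⟨m, (mem_filter.1 hm).2, fun z hz => hm' z (by simpa using hz)⟩

theorem le_of_local (h : OneMax f) {U : Finset ι} {x z : ι → Bool}
    (hx : ∀ i ∈ U, ¬ f x < f (flip x i)) (hz : ∀ i, i ∉ U → z i = x i) : f z ≤ f x := by
  obtain ⟨m, hm1, hm2⟩ := exists_max U x f
  have h1 : m = x := by
    apply (h U x).unique ⟨hm1, fun i hi => ?_⟩ ⟨fun _ _ => rfl, fun i hi => (lt_iff_not hf).2 (hx i hi)⟩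
    rw [lt_iff_not hf, not_lt]
    apply hm2
    intro j hj
    rw [flip_ne _ (fun h : j = i => hj (h ▸ hi))]
    exact hm1 j hj
  rw [← h1]
  exact hm2 z hz

theorem le_of_source (h : OneMax f) {U : Finset ι} {y z : ι → Bool}
    (hy : ∀ i ∈ U, f y < f (flip y i)) (hz : ∀ i, i ∉ U → z i = y i) : f y ≤ f z := by
  obtain ⟨m, hm1, hm2⟩ := exists_max U y (fun z => - f z)
  have h1 : m = y := by
    apply (h.uso hf).source hm1 (fun i hi => by simpa using hy i hi)
    intro i hi
    have h2 := hm2 (flip m i) fun j hj => by
      rw [flip_ne _ (fun h : j = i => hj (h ▸ hi))]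
      exact hm1 j hj
    have h3 : f m ≤ f (flip m i) := by linarith
    simpa using lt_of_le_of_ne h3 fun e => flip_ne_self m i (hf e).symm
  rw [← h1]
  have := hm2 z hz
  linarith

/-- the key property of abstract objective functions -/
theorem exists_dir (h : OneMax f) {x y : ι → Bool} (hxy : f x < f y) :
    ∃ i, x i ≠ y i ∧ f x < f (flip x i) ∧ ¬ f y < f (flip y i) := by
  classical
  by_contra hcon
  push Not at hcon
  let z : ι → Bool := fun i => if f x < f (flip x i) then x i else y i
  have h1 : f z ≤ f x := by
    apply le_of_local hf h (U := univ.filter fun i => x i ≠ y i ∧ ¬ f x < f (flip x i))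
    · intro i hi
      exact (mem_filter.1 hi).2.2
    · intro i hi
      simp only [mem_filter, mem_univ, true_and, not_and, not_not] at hi
      by_cases hi' : f x < f (flip x i)
      · simp [z, hi']
      · simp only [z, hi', if_false]
        by_contra hne
        exact hi' (hi (fun h => hne h.symm))
  have h2 : f y ≤ f z := by
    apply le_of_source hf h (U := univ.filter fun i => x i ≠ y i ∧ f x < f (flip x i))
    · intro i hi
      have := (mem_filter.1 hi).2
      exact hcon i this.1 this.2
    · intro i hi
      simp only [mem_filter, mem_univ, true_and, not_and] at hi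
      by_cases hi' : f x < f (flip x i)
      · simp only [z, hi', if_true]
        by_contra hne
        exact hi hne hi'
      · simp [z, hi']
  linarith

end

theorem mem_improving [Fintype ι] {f : (ι → Bool) → ℝ} {x : ι → Bool} {i : ι} :
    i ∈ improving f x ↔ f x < f (flip x i) := by
  simp [improving]

/-- **The winning strategy of the game is a pivot rule.** -/
theorem exists_rule [Fintype ι] [Nonempty ι] {N : ℕ} (hW : WinAll ι N) :
    ∃ rule : List ((ι → Bool) × Finset ι) → ι,
      (∀ (x : ι → Bool) (S : Finset ι) (l : List ((ι → Bool) × Finset ι)), S.Nonempty →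
        rule ((x, S) :: l) ∈ S) ∧
      ∀ (f : (ι → Bool) → ℝ), Function.Injective f → OneMax f →
        ∀ w : ℕ → ι → Bool,
          (∀ t, (improving f (w t)).Nonempty → w (t + 1) = flip (w t) (rule (seen f w t))) →
          ∃ L ≤ N, improving f (w L) = ∅ := by
  classical
  let rule : List ((ι → Bool) × Finset ι) → ι := fun l =>
    match l with
    | [] => Classical.arbitrary ι
    | (x, S) :: l =>
      if h : ∃ d ∈ S, Win (N - ((x, S) :: l).length) ((x, S) :: l) (flip x d) then h.choose
      else if h : S.Nonempty then h.choose else Classical.arbitrary ι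
  refine ⟨rule, ?_, ?_⟩
  · intro x S l hS
    simp only [rule]
    split_ifs with h
    · exact h.choose_spec.1
    · exact hS.choose_spec
  · intro f hf hU w hw
    by_contra hcon
    push Not at hcon
    have hseen : ∀ t, seen f w t = (w t, improving f (w t)) :: (seen f w t).tail := by
      intro t
      cases t <;> rfl
    have hlen : ∀ t, (seen f w t).length = t + 1 := by
      intro t
      induction t with
      | zero => rfl
      | succ t ih => simp [seen, ih]
    have key : ∀ t ≤ N, Win (N - t) (seen f w t).tail (w t) ∧
        ∀ p ∈ (seen f w t).tail, p.2 = improving f p.1 ∧ f p.1 < f (w t) := by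
      intro t
      induction t with
      | zero =>
        intro _
        exact ⟨hW _, by simp [seen]⟩
      | succ t ih =>
        intro ht
        obtain ⟨h1, h2⟩ := ih (by omega)
        have hc : Comp (seen f w t).tail (w t) (improving f (w t)) := by
          intro p hp
          obtain ⟨h3, h4⟩ := h2 p hp
          obtain ⟨i, hi1, hi2, hi3⟩ := exists_dir hf hU h4
          exact ⟨i, by rw [h3]; exact mem_improving.2 hi2, hi1, fun h => hi3 (mem_improving.1 h)⟩
        rw [show N - t = (N - (t + 1)) + 1 by omega] at h1
        have hex : ∃ d ∈ improving f (w t),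
            Win (N - (seen f w t).length) (seen f w t) (flip (w t) d) := by
          rcases h1 _ hc with h | h
          · exact absurd h (hcon t (by omega)).ne_empty
          · rw [hlen, hseen]
            exact h
        have hr : rule (seen f w t) ∈ improving f (w t) ∧
            Win (N - (seen f w t).length) (seen f w t) (flip (w t) (rule (seen f w t))) := by
          revert hex
          rw [hseen]
          intro hex
          simp only [rule]
          rw [dif_pos hex]
          exact hex.choose_spec
        have hw1 := hw t (hcon t (by omega))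
        have hlt : f (w t) < f (w (t + 1)) := by
          rw [hw1]
          exact mem_improving.1 hr.1
        refine ⟨?_, ?_⟩
        · have := hr.2
          rw [← hw1, hlen] at this
          exact this
        · intro p hp
          have hp' : p ∈ seen f w t := hp
          rw [hseen] at hp'
          rcases List.mem_cons.1 hp' with rfl | hp'
          · exact ⟨rfl, hlt⟩
          · exact ⟨(h2 p hp').1, (h2 p hp').2.trans hlt⟩
    obtain ⟨h1, h2⟩ := key N le_rfl
    rw [Nat.sub_self] at h1
    have hc : Comp (seen f w N).tail (w N) (improving f (w N)) := by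
      intro p hp
      obtain ⟨h3, h4⟩ := h2 p hp
      obtain ⟨i, hi1, hi2, hi3⟩ := exists_dir hf hU h4
      exact ⟨i, by rw [h3]; exact mem_improving.2 hi2, hi1, fun h => hi3 (mem_improving.1 h)⟩
    exact (hcon N le_rfl).ne_empty (h1 _ hc)

/-- a local maximum is the maximum -/
theorem max_of_improving [Fintype ι] {f : (ι → Bool) → ℝ} (hf : Function.Injective f)
    (hU : OneMax f) {x : ι → Bool} (hx : improving f x = ∅) (z : ι → Bool) : f z ≤ f x := by
  apply le_of_local hf hU (U := univ)
  · intro i _ h
    have : i ∈ improving f x := mem_improving.2 h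
    rw [hx] at this
    simp at this
  · intro i hi
    simp at hi

end Pool.Agent.H93.DP
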