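import Pool.Agent.H93.DP.Run
set_option autoImplicit false

/-!
# A checker for certificates of the macro game

A position of the macro game is described by the set of the pairs (vertex, set of improving directions)
which are compatible with the records; the pairs are coded by numbers `p < 4 ^ k`, the low `k` bits of `p`
are the set and the high `k` bits the vertex. A set of pairs is coded by a number of `4 ^ k` bits.
-/

namespace Pool.Agent.H93.DP

open Finset

/-! ## Semantics -/

variable {k : ℕ}

/-- `p` codes the vertex `y` relative to `c` and the set `U`, with the names `σ` of the directions -/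
def Code (σ : Fin k ≃ Fin k) (c y : Fin k → Bool) (U : Finset (Fin k)) (p : ℕ) : Prop :=
  p < 2 ^ (k + k) ∧ ∀ i : Fin k, p.testBit i = decide (σ i ∈ U) ∧
    p.testBit (k + i) = xor (y (σ i)) (c (σ i))

theorem exists_code (σ : Fin k ≃ Fin k) (c y : Fin k → Bool) (U : Finset (Fin k)) :
    ∃ p, Code σ c y U p := by
  let f : Fin (k + k) → Bool := Fin.append (fun i => decide (σ i ∈ U))
    (fun i => xor (y (σ i)) (c (σ i)))
  refine ⟨Nat.ofBits f, Nat.ofBits_lt_two_pow f, fun i => ⟨?_, ?_⟩⟩
  · rw [Nat.testBit_ofBits_lt f i (by omega)]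
    have : (⟨i, by omega⟩ : Fin (k + k)) = Fin.castAdd k i := rfl
    rw [this]
    exact Fin.append_left _ _ _
  · rw [Nat.testBit_ofBits_lt f (k + i) (by omega)]
    have : (⟨k + i, by omega⟩ : Fin (k + k)) = Fin.natAdd k i := rfl
    rw [this]
    exact Fin.append_right _ _ _

/-- all pairs compatible with `E` are in `S` -/
def Fits (σ : Fin k ≃ Fin k) (c : Fin k → Bool) (E : List ((Fin k → Bool) × Finset (Fin k)))
    (S : ℕ) : Prop :=
  ∀ y U p, Code σ c y U p → Comp E y U → S.testBit p = true

/-- `r` runs are enough if only the pairs in `S` are compatible with the records -/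
def W (k r S : ℕ) : Prop :=
  ∀ (σ : Fin k ≃ Fin k) (c : Fin k → Bool) (E : List ((Fin k → Bool) × Finset (Fin k))),
    Fits σ c E S → Mac r E c

/-! ## Masks -/

/-- the mask of a record `(b, O)` -/
def recM : List (ℕ × ℕ) → ℕ → ℕ → ℕ
  | [], _, _ => 0
  | m :: ms, b, O => Nat.lor (cond (Nat.beq (Nat.mod O 2) 1)
      (cond (Nat.beq (Nat.mod b 2) 1) m.2 m.1) 0) (recM ms (Nat.div b 2) (Nat.div O 2))

/-- a conjunction of masks selected by the bits of `b` -/
def selM (full : ℕ) : List (ℕ × ℕ) → ℕ → ℕ
  | [], _ => full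
  | m :: ms, b => Nat.land (cond (Nat.beq (Nat.mod b 2) 1) m.2 m.1) (selM full ms (Nat.div b 2))

theorem cond_testBit (b : ℕ) (x y p : ℕ) :
    (cond (Nat.beq (Nat.mod b 2) 1) x y).testBit p =
      (if b.testBit 0 = true then x else y).testBit p := by
  have h : Nat.beq (Nat.mod b 2) 1 = b.testBit 0 := by
    rw [Nat.testBit_zero]
    change Nat.beq (b % 2) 1 = _
    rcases Nat.mod_two_eq_zero_or_one b with h | h <;> rw [h] <;> rfl
  rw [h]
  cases b.testBit 0 <;> rfl

theorem recM_spec : ∀ (ms : List (ℕ × ℕ)) (b O p : ℕ), (recM ms b O).testBit p = true ↔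
    ∃ (j : ℕ) (h : j < ms.length), O.testBit j = true ∧
      (if b.testBit j = true then ms[j].2 else ms[j].1).testBit p = true := by
  intro ms
  induction ms with
  | nil =>
    intro b O p
    simp [recM]
  | cons m ms ih =>
    intro b O p
    have h1 : (recM (m :: ms) b O).testBit p = ((cond (Nat.beq (Nat.mod O 2) 1)
      (cond (Nat.beq (Nat.mod b 2) 1) m.2 m.1) 0).testBit p ||
        (recM ms (b / 2) (O / 2)).testBit p) := Nat.testBit_or _ _ _
    rw [h1, Bool.or_eq_true, cond_testBit, ih]
    constructor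
    · rintro (h | ⟨j, hj, h2, h3⟩)
      · by_cases h0 : O.testBit 0 = true
        · rw [if_pos h0, cond_testBit] at h
          exact ⟨0, by simp, h0, by simpa using h⟩
        · rw [if_neg h0] at h
          simp at h
      · refine ⟨j + 1, by simpa using hj, ?_, ?_⟩
        · rw [Nat.testBit_succ]
          exact h2
        · rw [Nat.testBit_succ]
          simpa using h3
    · rintro ⟨j, hj, h2, h3⟩
      rcases j with _ | j
      · left
        rw [if_pos h2, cond_testBit]
        simpa using h3
      · right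
        refine ⟨j, by simpa using hj, ?_, ?_⟩
        · rw [← Nat.testBit_succ]
          exact h2
        · rw [← Nat.testBit_succ]
          simpa using h3

theorem selM_spec (full : ℕ) : ∀ (ms : List (ℕ × ℕ)) (b p : ℕ), full.testBit p = true →
    ((selM full ms b).testBit p = true ↔
      ∀ (j : ℕ) (h : j < ms.length),
        (if b.testBit j = true then ms[j].2 else ms[j].1).testBit p = true) := by
  intro ms
  induction ms with
  | nil =>
    intro b p hp
    simp [selM, hp]
  | cons m ms ih =>
    intro b p hp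
    have h1 : (selM full (m :: ms) b).testBit p = ((cond (Nat.beq (Nat.mod b 2) 1) m.2 m.1).testBit p &&
        (selM full ms (b / 2)).testBit p) := Nat.testBit_and _ _ _
    rw [h1, Bool.and_eq_true, cond_testBit, ih _ _ hp]
    constructor
    · rintro ⟨h2, h3⟩ j hj
      rcases j with _ | j
      · simpa using h2
      · have := h3 j (by simpa using hj)
        rw [Nat.testBit_succ]
        simpa using this
    · intro h
      refine ⟨h 0 (by simp), fun j hj => ?_⟩
      have := h (j + 1) (by simpa using hj)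
      rw [Nat.testBit_succ] at this
      simpa using this

/-- the pairs compatible with the records coded by `Y`, translated by `e` -/
def stM (ms : List (ℕ × ℕ)) (full n e : ℕ) : ℕ → ℕ → ℕ
  | 0, _ => full
  | f + 1, Y => cond (Nat.beq Y 0) full
      (Nat.land (recM ms (Nat.xor (Nat.mod Y n) e) (Nat.mod (Nat.div Y n) n))
        (stM ms full n e f (Nat.div (Nat.div Y n) n)))

theorem stM_eq {ms ms' : List (ℕ × ℕ)} {full n e q q' : ℕ} (hq : full.testBit q = true)
    (hq' : full.testBit q' = true)
    (h : ∀ b O, (recM ms (Nat.xor b e) O).testBit q = (recM ms' b O).testBit q') :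
    ∀ f Y, (stM ms full n e f Y).testBit q = (stM ms' full n 0 f Y).testBit q' := by
  intro f
  induction f with
  | zero =>
    intro Y
    simp [stM, hq, hq']
  | succ f ih =>
    intro Y
    unfold stM
    cases Nat.beq Y 0 with
    | true => simp [hq, hq']
    | false =>
      have h1 : ∀ a b : ℕ, Nat.land a b = a &&& b := fun _ _ => rfl
      have h2 : ∀ a : ℕ, Nat.xor a 0 = a := Nat.xor_zero
      simp only [cond_false, h1, Nat.testBit_and, ih, h, h2]

/-- the masks of the game on `k` directions -/
structure Msk where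
  /-- number of directions -/
  k : ℕ
  /-- `2 ^ k` -/
  n : ℕ
  /-- all pairs -/
  full : ℕ
  /-- the pairs with nonempty set -/
  l1 : ℕ
  /-- masks for records -/
  rc : List (ℕ × ℕ)
  /-- masks for the protocol -/
  q : List (ℕ × ℕ)
  /-- masks for the vertices -/
  y : List (ℕ × ℕ)
  /-- masks for the subsets of a set -/
  o : List (ℕ × ℕ)
  /-- masks for the sets containing a direction -/
  h : List ℕ

/-- correctness of the masks -/
structure Msk.Ok (m : Msk) : Prop where
  hn : m.n = 2 ^ m.k
  hrc : m.rc.length = m.k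
  hq : m.q.length = m.k
  hy : m.y.length = m.k
  ho : m.o.length = m.k
  hh : m.h.length = m.k
  full : ∀ p, p < 2 ^ (m.k + m.k) → m.full.testBit p = true
  l1 : ∀ p, p < 2 ^ (m.k + m.k) → ∀ i, i < m.k → p.testBit i = true → m.l1.testBit p = true
  rc : ∀ (i : ℕ) (h : i < m.rc.length) (p : ℕ), p < 2 ^ (m.k + m.k) →
    m.rc[i].1.testBit p = (p.testBit (m.k + i) && !(p.testBit i)) ∧
    m.rc[i].2.testBit p = (!(p.testBit (m.k + i)) && !(p.testBit i))
  q : ∀ (i : ℕ) (h : i < m.q.length) (p : ℕ), p < 2 ^ (m.k + m.k) →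
    (p.testBit (m.k + i) = false → m.q[i].1.testBit p = true) ∧
    ((p.testBit i = true → p.testBit (m.k + i) = true) → m.q[i].2.testBit p = true)
  y : ∀ (i : ℕ) (h : i < m.y.length) (p : ℕ), p < 2 ^ (m.k + m.k) →
    m.y[i].1.testBit p = !(p.testBit (m.k + i)) ∧ m.y[i].2.testBit p = p.testBit (m.k + i)
  o : ∀ (i : ℕ) (h : i < m.o.length) (p : ℕ), p < 2 ^ (m.k + m.k) →
    m.o[i].1.testBit p = !(p.testBit i)
  h : ∀ (i : ℕ) (h : i < m.h.length) (p : ℕ), p < 2 ^ (m.k + m.k) →
    m.h[i].testBit p = p.testBit i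

/-! ## The checker -/

/-- trees of entries: a leaf holds the records and the data of the strategy -/
inductive Tr : Type
  | lf (n z : ℕ) : Tr
  | nd (l r : Tr) : Tr

/-- the records of an entry -/
def Tr.get : Tr → ℕ → ℕ
  | .lf n _, i => cond (Nat.beq i 0) n 0
  | .nd l r, i => cond (Nat.beq (Nat.mod i 2) 1) (r.get (Nat.div i 2)) (l.get (Nat.div i 2))

/-- `c` with permuted directions -/
def eM (c : ℕ) : List ℕ → ℕ
  | [] => 0
  | t :: ts => Nat.add (Nat.mod (Nat.shiftRight c t) 2) (Nat.mul 2 (eM c ts))

/-- the set of the members of a list -/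
def orM : List ℕ → ℕ
  | [] => 0
  | t :: ts => Nat.lor (Nat.shiftLeft 1 t) (orM ts)

/-- `k` digits to the base `8` -/
def digits8 : ℕ → ℕ → List ℕ
  | 0, _ => []
  | f + 1, w => Nat.mod w 8 :: digits8 f (Nat.div w 8)

/-- check one response: the vertex `b`, the set `O`, the direction `d`, and the entry with records `Y`
after the permutation `τ` -/
def chkW (m : Msk) (fuel SE b O d : ℕ) (τ : List ℕ) (Y : ℕ) : Bool :=
  (Nat.beq (orM τ) (Nat.sub m.n 1)) && (!(Nat.beq Y 0) &&
    (Nat.beq (Nat.land (Nat.land SE (recM m.rc b O))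
      (stM (τ.map fun t => m.rc.getD t (0, 0)) m.full m.n
        (eM (Nat.xor b (Nat.shiftLeft 1 d)) τ) fuel Y)) (Nat.land SE (recM m.rc b O))))

/-- the pairs treated by a response -/
def regM (m : Msk) (b O d : ℕ) : ℕ :=
  Nat.land (selM m.full m.y b) (Nat.land (selM m.full m.o O) (m.h.getD d 0))

/-- check the responses coded by `D` -/
def chkR (m : Msk) (T : Tr) (fuel SE : ℕ) : ℕ → ℕ → ℕ → Bool
  | 0, _, Rem => Nat.beq (Nat.land Rem m.l1) 0
  | f + 1, D, Rem => cond (Nat.beq D 0) (Nat.beq (Nat.land Rem m.l1) 0)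
      (chkW m fuel SE (Nat.mod D m.n) (Nat.mod (Nat.div D m.n) m.n)
        (Nat.mod (Nat.div D (Nat.mul m.n m.n)) 8)
        (digits8 m.k (Nat.div D (Nat.mul (Nat.mul m.n m.n) 8)))
        (T.get (Nat.mod (Nat.shiftRight D 40) 65536)) &&
      chkR m T fuel SE f (Nat.shiftRight D 56)
        (Nat.xor Rem (Nat.land Rem (regM m (Nat.mod D m.n) (Nat.mod (Nat.div D m.n) m.n)
          (Nat.mod (Nat.div D (Nat.mul m.n m.n)) 8)))))

/-- check an entry with records `X`, the data `z` hold the set `P` and the responses -/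
def chkE (m : Msk) (T : Tr) (fuel X z : ℕ) : Bool :=
  chkR m T fuel (stM m.rc m.full m.n 0 fuel X) 64 (Nat.div z m.n)
    (Nat.land (stM m.rc m.full m.n 0 fuel X) (selM m.full m.q (Nat.mod z m.n)))

/-- check all entries of a tree -/
def chkT (m : Msk) (T : Tr) (fuel : ℕ) : Tr → Bool
  | .lf n z => cond (Nat.beq n 0) true (chkE m T fuel n z)
  | .nd l r => chkT m T fuel l && chkT m T fuel r

end Pool.Agent.H93.DP
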