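import Pool.Agent.H93.DP.Check
set_option autoImplicit false

/-!
# Soundness of the checker
-/

namespace Pool.Agent.H93.DP

open Finset

theorem orM_spec : ∀ (τ : List ℕ) (j : ℕ), (orM τ).testBit j = true ↔ j ∈ τ := by
  intro τ
  induction τ with
  | nil =>
    intro j
    simp [orM]
  | cons t ts ih =>
    intro j
    have h1 : (orM (t :: ts)).testBit j = ((1 <<< t).testBit j || (orM ts).testBit j) :=
      Nat.testBit_or _ _ _
    rw [h1, Bool.or_eq_true, ih, Nat.one_shiftLeft, Nat.testBit_two_pow, List.mem_cons,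
      decide_eq_true_iff]
    exact or_congr_left eq_comm

theorem exists_perm {k : ℕ} {τ : List ℕ} (hlen : τ.length = k) (h : orM τ = 2 ^ k - 1) :
    ∃ ρ : Fin k ≃ Fin k, ∀ i : Fin k, τ[(i : ℕ)]'(by omega) = ρ i := by
  have h1 : ∀ j, j ∈ τ ↔ j < k := by
    intro j
    rw [← orM_spec, h, Nat.testBit_two_pow_sub_one, decide_eq_true_iff]
  let g : Fin k → Fin k := fun i => ⟨τ[(i : ℕ)]'(by omega), (h1 _).1 (List.getElem_mem _)⟩
  have hg : Function.Surjective g := by
    intro j
    obtain ⟨i, hi, hij⟩ := List.mem_iff_getElem.1 ((h1 j).2 j.2)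
    exact ⟨⟨i, by omega⟩, Fin.ext hij⟩
  refine ⟨Equiv.ofBijective g (Finite.surjective_iff_bijective.1 hg), fun i => rfl⟩

theorem eM_spec (c : ℕ) : ∀ (τ : List ℕ) (j : ℕ) (h : j < τ.length),
    (eM c τ).testBit j = c.testBit τ[j] := by
  intro τ
  induction τ with
  | nil =>
    intro j h
    simp at h
  | cons t ts ih =>
    intro j h
    have h1 : eM c (t :: ts) = c >>> t % 2 + 2 * eM c ts := rfl
    rw [h1]
    rcases j with _ | j
    · rw [Nat.testBit_zero]
      simp only [List.getElem_cons_zero]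
      have h2 : (c >>> t % 2 + 2 * eM c ts) % 2 = c >>> t % 2 := by omega
      rw [h2]
      have h3 : c.testBit t = (c >>> t).testBit 0 := by
        rw [Nat.testBit_shiftRight, add_zero]
      rw [h3, Nat.testBit_zero]
    · rw [Nat.testBit_succ]
      have h2 : (c >>> t % 2 + 2 * eM c ts) / 2 = eM c ts := by omega
      rw [h2, ih j (by simpa using h)]
      simp

theorem digits8_length : ∀ (f w : ℕ), (digits8 f w).length = f := by
  intro f
  induction f with
  | zero =>
    intro w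
    rfl
  | succ f ih =>
    intro w
    simp [digits8, ih]

variable {m : Msk}

/-- the masks of the permuted directions -/
theorem recM_perm (hm : m.Ok) {τ : List ℕ} (ρ : Fin m.k ≃ Fin m.k) (hlen : τ.length = m.k)
    (hρ : ∀ i : Fin m.k, τ[(i : ℕ)]'(by omega) = ρ i) {e q q' : ℕ}
    (hq : q < 2 ^ (m.k + m.k)) (hq' : q' < 2 ^ (m.k + m.k))
    (h1 : ∀ i : Fin m.k, q'.testBit i = q.testBit (ρ i))
    (h2 : ∀ i : Fin m.k, q'.testBit (m.k + i) = xor (q.testBit (m.k + ρ i)) (e.testBit i))
    (b O : ℕ) :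
    (recM (τ.map fun t => m.rc.getD t (0, 0)) (Nat.xor b e) O).testBit q =
      (recM m.rc b O).testBit q' := by
  rw [Bool.eq_iff_iff, recM_spec, recM_spec]
  have key : ∀ (j : ℕ) (hj : j < m.k) (hj1 : j < (τ.map fun t => m.rc.getD t (0, 0)).length)
      (hj2 : j < m.rc.length),
      ((if (Nat.xor b e).testBit j = true then (τ.map fun t => m.rc.getD t (0, 0))[j].2 else
        (τ.map fun t => m.rc.getD t (0, 0))[j].1).testBit q) =
      ((if b.testBit j = true then m.rc[j].2 else m.rc[j].1).testBit q') := by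
    intro j hj hj1 hj2
    have hr : τ[j]'(by omega) = ρ ⟨j, hj⟩ := hρ ⟨j, hj⟩
    have hr2 : (ρ ⟨j, hj⟩ : ℕ) < m.rc.length := by
      rw [hm.hrc]
      exact (ρ ⟨j, hj⟩).2
    have h3 : (τ.map fun t => m.rc.getD t (0, 0))[j] = m.rc[(ρ ⟨j, hj⟩ : ℕ)] := by
      rw [List.getElem_map, hr, List.getD_eq_getElem _ _ hr2]
    rw [h3]
    obtain ⟨h4, h5⟩ := hm.rc _ hr2 q hq
    obtain ⟨h6, h7⟩ := hm.rc j hj2 q' hq'
    have h8 : (Nat.xor b e).testBit j = xor (b.testBit j) (e.testBit j) := Nat.testBit_xor _ _ _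
    have h9 := h1 ⟨j, hj⟩
    have h10 := h2 ⟨j, hj⟩
    simp only at h9 h10
    rw [h8]
    cases hb : b.testBit j <;> cases hee : e.testBit j <;>
      simp [hee, h4, h5, h6, h7, h9, h10] at *
  constructor
  · rintro ⟨j, hj, h3, h4⟩
    have hj' : j < m.k := by simpa [hlen] using hj
    refine ⟨j, by rw [hm.hrc]; exact hj', h3, ?_⟩
    rw [← key j hj' hj (by rw [hm.hrc]; exact hj')]
    exact h4
  · rintro ⟨j, hj, h3, h4⟩
    have hj' : j < m.k := by rw [← hm.hrc]; exact hj
    have hj1 : j < (τ.map fun t => m.rc.getD t (0, 0)).length := by simpa [hlen] using hj'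
    refine ⟨j, hj1, h3, ?_⟩
    rw [key j hj' hj1 hj]
    exact h4

theorem beq_eq {a b : ℕ} (h : Nat.beq a b = true) : a = b := Nat.eq_of_beq_eq_true h

/-- the move to a child -/
theorem W_child (hm : m.Ok) {r fuel SE b O d Y : ℕ} {τ : List ℕ} (hτ : τ.length = m.k)
    (hchk : chkW m fuel SE b O d τ Y = true) (hY : W m.k r (stM m.rc m.full m.n 0 fuel Y))
    {σ : Fin m.k ≃ Fin m.k} {c : Fin m.k → Bool}
    {E : List ((Fin m.k → Bool) × Finset (Fin m.k))} (hE : Fits σ c E SE)
    {b' : Fin m.k → Bool} {O' : Finset (Fin m.k)} {p : ℕ} (hp : Code σ c b' O' p)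
    (hd : d < m.k) (hb : ∀ i, i < m.k → p.testBit (m.k + i) = b.testBit i)
    (hO : ∀ i, i < m.k → p.testBit i = true → O.testBit i = true) :
    Mac r ((b', O') :: E) (flip b' (σ ⟨d, hd⟩)) := by
  unfold chkW at hchk
  rw [Bool.and_eq_true, Bool.and_eq_true] at hchk
  obtain ⟨h1, -, h2⟩ := hchk
  have h1 : orM τ = 2 ^ m.k - 1 := by
    rw [← hm.hn]
    exact beq_eq h1
  have h2 := beq_eq h2
  obtain ⟨ρ, hρ⟩ := exists_perm hτ h1
  refine hY (ρ.trans σ) (flip b' (σ ⟨d, hd⟩)) _ ?_
  intro y U q' hq' hcomp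
  obtain ⟨q, hq⟩ := exists_code σ c y U
  have h3 : SE.testBit q = true := hE y U q hq (hcomp.mono fun p hp => List.mem_cons_of_mem _ hp)
  have h4 : (recM m.rc b O).testBit q = true := by
    obtain ⟨i', hi1, hi2, hi3⟩ := hcomp (b', O') List.mem_cons_self
    rw [recM_spec]
    have hi4 := (σ.symm i').2
    have hi5 : (σ.symm i' : ℕ) < m.rc.length := by
      rw [hm.hrc]
      exact hi4
    obtain ⟨h5, h6⟩ := hm.rc _ hi5 q hq.1
    have h7 := hp.2 (σ.symm i')
    have h8 := hq.2 (σ.symm i')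
    rw [Equiv.apply_symm_apply] at h7 h8
    have h9 : p.testBit (σ.symm i') = true := by
      rw [h7.1]
      simpa using hi1
    have h10 : q.testBit (σ.symm i') = false := by
      rw [h8.1]
      simpa using hi3
    refine ⟨σ.symm i', hi5, hO _ hi4 h9, ?_⟩
    have h11 := hb _ hi4
    rw [h7.2] at h11
    rw [← h11]
    have h12 := h8.2
    simp only at hi2
    by_cases h13 : xor (b' i') (c i') = true
    · rw [if_pos h13, h6, h10, h12]
      revert hi2 h13
      cases b' i' <;> cases y i' <;> cases c i' <;> simp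
    · rw [if_neg h13, h5, h10, h12]
      revert hi2 h13
      cases b' i' <;> cases y i' <;> cases c i' <;> simp
  have h5 : (Nat.land SE (recM m.rc b O)).testBit q = true := by
    have : Nat.land SE (recM m.rc b O) = SE &&& recM m.rc b O := rfl
    rw [this, Nat.testBit_and, h3, h4]
    rfl
  have h6 : (stM (τ.map fun t => m.rc.getD t (0, 0)) m.full m.n
      (eM (Nat.xor b (Nat.shiftLeft 1 d)) τ) fuel Y).testBit q = true := by
    rw [← h2] at h5
    have h7 : ∀ x y : ℕ, (Nat.land x y).testBit q = (x.testBit q && y.testBit q) :=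
      fun x y => Nat.testBit_and x y q
    rw [h7, Bool.and_eq_true] at h5
    exact h5.2
  rw [← h6]
  symm
  apply stM_eq (hm.full q hq.1) (hm.full q' hq'.1)
  intro b1 O1
  apply recM_perm hm ρ hτ hρ hq.1 hq'.1
  · intro i
    rw [(hq'.2 i).1, (hq.2 (ρ i)).1]
    rfl
  · intro i
    rw [(hq'.2 i).2, (hq.2 (ρ i)).2, eM_spec _ _ _ (by rw [hτ]; exact i.2), hρ i]
    have h7 : (Nat.xor b (Nat.shiftLeft 1 d)).testBit (ρ i) =
        xor (b.testBit (ρ i)) ((1 <<< d).testBit (ρ i)) := Nat.testBit_xor _ _ _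
    rw [h7, Nat.one_shiftLeft, Nat.testBit_two_pow]
    have h8 := hb _ (ρ i).2
    rw [(hp.2 (ρ i)).2] at h8
    rw [← h8]
    have h9 : flip b' (σ ⟨d, hd⟩) (σ (ρ i)) = xor (b' (σ (ρ i))) (decide (d = (ρ i : ℕ))) := by
      by_cases h10 : d = (ρ i : ℕ)
      · have h11 : ρ i = ⟨d, hd⟩ := Fin.ext h10.symm
        rw [h11, flip_self]
        simp
      · rw [flip_ne]
        · simp [h10]
        · intro h11
          exact h10 (congrArg Fin.val (σ.injective h11)).symm
    change xor (y (σ (ρ i))) (flip b' (σ ⟨d, hd⟩) (σ (ρ i))) = _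
    rw [h9]
    cases y (σ (ρ i)) <;> cases b' (σ (ρ i)) <;> cases c (σ (ρ i)) <;> simp

theorem land_testBit (x y p : ℕ) : (Nat.land x y).testBit p = (x.testBit p && y.testBit p) :=
  Nat.testBit_and x y p

theorem regM_spec (hm : m.Ok) {b O d p : ℕ} (hp : p < 2 ^ (m.k + m.k))
    (h : (regM m b O d).testBit p = true) :
    d < m.k ∧ (∀ i, i < m.k → p.testBit (m.k + i) = b.testBit i) ∧
      (∀ i, i < m.k → p.testBit i = true → O.testBit i = true) ∧ p.testBit d = true := by
  unfold regM at h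
  rw [land_testBit, land_testBit, Bool.and_eq_true, Bool.and_eq_true,
    selM_spec _ _ _ _ (hm.full p hp), selM_spec _ _ _ _ (hm.full p hp)] at h
  obtain ⟨h1, h2, h3⟩ := h
  have hd : d < m.k := by
    by_contra hd
    rw [List.getD_eq_default _ _ (by rw [hm.hh]; omega)] at h3
    simp at h3
  refine ⟨hd, fun i hi => ?_, fun i hi hpi => ?_, ?_⟩
  · have h4 := h1 i (by rw [hm.hy]; exact hi)
    obtain ⟨h5, h6⟩ := hm.y i (by rw [hm.hy]; exact hi) p hp
    cases hb : b.testBit i
    · rw [hb] at h4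
      simp only [Bool.false_eq_true, if_false] at h4
      rw [h5] at h4
      simpa using h4
    · rw [hb] at h4
      simp only [if_true] at h4
      rw [h6] at h4
      exact h4
  · by_contra hO
    have h4 := h2 i (by rw [hm.ho]; exact hi)
    rw [if_neg hO, hm.o i (by rw [hm.ho]; exact hi) p hp, hpi] at h4
    cases h4
  · rw [List.getD_eq_getElem _ _ (by rw [hm.hh]; exact hd),
      hm.h d (by rw [hm.hh]; exact hd) p hp] at h3
    exact h3

theorem chkR_sound {T : Tr} {fuel SE : ℕ} : ∀ (f D Rem : ℕ), chkR m T fuel SE f D Rem = true →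
    ∀ p, Rem.testBit p = true → m.l1.testBit p = true →
      ∃ (b O d : ℕ) (τ : List ℕ) (i : ℕ), τ.length = m.k ∧
        chkW m fuel SE b O d τ (T.get i) = true ∧ (regM m b O d).testBit p = true := by
  have hbase : ∀ Rem : ℕ, Nat.beq (Nat.land Rem m.l1) 0 = true → ∀ p, Rem.testBit p = true →
      m.l1.testBit p = true → False := by
    intro Rem h p h1 h2
    have h3 := congrArg (fun x => Nat.testBit x p) (beq_eq h)
    simp only [land_testBit, h1, h2, Nat.zero_testBit] at h3
    cases h3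
  intro f
  induction f with
  | zero =>
    intro D Rem h p h1 h2
    exact (hbase Rem h p h1 h2).elim
  | succ f ih =>
    intro D Rem h p h1 h2
    unfold chkR at h
    cases hD : Nat.beq D 0 with
    | true =>
      rw [hD] at h
      exact (hbase Rem h p h1 h2).elim
    | false =>
      rw [hD, cond_false, Bool.and_eq_true] at h
      obtain ⟨h3, h4⟩ := h
      by_cases hreg : (regM m (Nat.mod D m.n) (Nat.mod (Nat.div D m.n) m.n)
          (Nat.mod (Nat.div D (Nat.mul m.n m.n)) 8)).testBit p = true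
      · exact ⟨_, _, _, _, _, digits8_length _ _, h3, hreg⟩
      · apply ih _ _ h4 p _ h2
        have h5 : ∀ x y : ℕ, (Nat.xor x y).testBit p = xor (x.testBit p) (y.testBit p) :=
          fun x y => Nat.testBit_xor x y p
        rw [h5, land_testBit, h1]
        simpa using hreg

/-- one level of the certificate -/
theorem W_step (hm : m.Ok) {T : Tr} {r fuel X z : ℕ}
    (hT : ∀ i, T.get i ≠ 0 → W m.k r (stM m.rc m.full m.n 0 fuel (T.get i)))
    (h : chkE m T fuel X z = true) : W m.k (r + 1) (stM m.rc m.full m.n 0 fuel X) := by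
  intro σ c E hE
  refine ⟨univ.filter fun d => (Nat.mod z m.n).testBit (σ.symm d) = true, ?_⟩
  intro b' O' h1 h2 h3
  by_cases hO : O' = ∅
  · exact Or.inl hO
  right
  obtain ⟨p, hp⟩ := exists_code σ c b' O'
  have h4 : (stM m.rc m.full m.n 0 fuel X).testBit p = true := hE b' O' p hp h3
  have h5 : (selM m.full m.q (Nat.mod z m.n)).testBit p = true := by
    rw [selM_spec _ _ _ _ (hm.full p hp.1)]
    intro j hj
    have hj' : j < m.k := by rw [← hm.hq]; exact hj
    have h6 := hp.2 ⟨j, hj'⟩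
    simp only at h6
    obtain ⟨h7, h8⟩ := hm.q j hj p hp.1
    by_cases hP : (Nat.mod z m.n).testBit j = true
    · rw [if_pos hP]
      apply h8
      intro h9
      rw [h6.1] at h9
      have h10 := h2 (σ ⟨j, hj'⟩) (by simpa using hP) (by simpa using h9)
      rw [h6.2]
      revert h10
      cases b' (σ ⟨j, hj'⟩) <;> cases c (σ ⟨j, hj'⟩) <;> simp
    · rw [if_neg hP]
      apply h7
      have h10 := h1 (σ ⟨j, hj'⟩) (by simpa using hP)
      rw [h6.2, h10]
      simp
  obtain ⟨e, he⟩ := nonempty_iff_ne_empty.2 hO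
  have h6 : p.testBit (σ.symm e) = true := by
    rw [(hp.2 (σ.symm e)).1]
    simpa using he
  have h7 : m.l1.testBit p = true := hm.l1 p hp.1 _ (σ.symm e).2 h6
  have h8 : (Nat.land (stM m.rc m.full m.n 0 fuel X)
      (selM m.full m.q (Nat.mod z m.n))).testBit p = true := by
    rw [land_testBit, h4, h5]
    rfl
  obtain ⟨b, O, d, τ, i, hτ, h9, h10⟩ := chkR_sound _ _ _ h p h8 h7
  obtain ⟨hd, hb, hO, hpd⟩ := regM_spec hm hp.1 h10
  refine ⟨σ ⟨d, hd⟩, ?_, ?_⟩
  · have h11 := (hp.2 ⟨d, hd⟩).1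
    simp only at h11
    rw [hpd] at h11
    simpa using h11.symm
  · have hY : T.get i ≠ 0 := by
      intro h11
      unfold chkW at h9
      rw [h11] at h9
      simp at h9
    exact W_child hm hτ h9 (hT i hY) hE hp hd hb hO

/-- all entries of the tree `T` are won with `r` runs -/
def Good (m : Msk) (fuel r : ℕ) (T : Tr) : Prop :=
  ∀ i, T.get i ≠ 0 → W m.k r (stM m.rc m.full m.n 0 fuel (T.get i))

theorem Good.step (hm : m.Ok) {T : Tr} {r fuel : ℕ} (hT : Good m fuel r T) :
    ∀ {T' : Tr}, chkT m T fuel T' = true → Good m fuel (r + 1) T' := by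
  intro T'
  induction T' with
  | lf n z =>
    intro h i hi
    have h1 : Tr.get (.lf n z) i = cond (Nat.beq i 0) n 0 := rfl
    cases h2 : Nat.beq i 0 with
    | false =>
      rw [h1, h2] at hi
      exact absurd rfl hi
    | true =>
      rw [h1, h2] at hi ⊢
      have h3 : Nat.beq n 0 = false := by
        cases h4 : Nat.beq n 0 with
        | false => rfl
        | true => exact absurd (beq_eq h4) hi
      have h4 : chkT m T fuel (.lf n z) = cond (Nat.beq n 0) true (chkE m T fuel n z) := rfl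
      rw [h4, h3] at h
      exact W_step hm hT h
  | nd l r ihl ihr =>
    intro h i
    have h1 : chkT m T fuel (.nd l r) = (chkT m T fuel l && chkT m T fuel r) := rfl
    rw [h1, Bool.and_eq_true] at h
    have h2 : Tr.get (.nd l r) i = cond (Nat.beq (Nat.mod i 2) 1) (r.get (Nat.div i 2))
      (l.get (Nat.div i 2)) := rfl
    rw [h2]
    cases Nat.beq (Nat.mod i 2) 1 with
    | false => exact ihl h.1 _
    | true => exact ihr h.2 _

theorem Good.zero (m : Msk) (fuel r : ℕ) : Good m fuel r (.lf 0 0) := by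
  intro i hi
  exfalso
  apply hi
  have h1 : Tr.get (.lf 0 0) i = cond (Nat.beq i 0) 0 0 := rfl
  rw [h1]
  cases Nat.beq i 0 <;> rfl

/-- the check of the masks -/
def okB (m : Msk) : Bool :=
  (m.n == 2 ^ m.k) && (m.rc.length == m.k) && (m.q.length == m.k) && (m.y.length == m.k) &&
  (m.o.length == m.k) && (m.h.length == m.k) &&
  (List.range (2 ^ (m.k + m.k))).all fun p => m.full.testBit p &&
    (List.range m.k).all fun i =>
      (!(p.testBit i) || m.l1.testBit p) &&
      ((m.rc.getD i (0, 0)).1.testBit p == (p.testBit (m.k + i) && !(p.testBit i))) &&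
      ((m.rc.getD i (0, 0)).2.testBit p == (!(p.testBit (m.k + i)) && !(p.testBit i))) &&
      (p.testBit (m.k + i) || (m.q.getD i (0, 0)).1.testBit p) &&
      ((p.testBit i && !(p.testBit (m.k + i))) || (m.q.getD i (0, 0)).2.testBit p) &&
      ((m.y.getD i (0, 0)).1.testBit p == !(p.testBit (m.k + i))) &&
      ((m.y.getD i (0, 0)).2.testBit p == p.testBit (m.k + i)) &&
      ((m.o.getD i (0, 0)).1.testBit p == !(p.testBit i)) &&
      ((m.h.getD i 0).testBit p == p.testBit i)

theorem ok_of_okB {m : Msk} (h : okB m = true) : m.Ok := by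
  unfold okB at h
  simp only [Bool.and_eq_true, List.all_eq_true, List.mem_range, beq_iff_eq, Bool.or_eq_true,
    Bool.not_eq_true'] at h
  obtain ⟨⟨⟨⟨⟨⟨hn, hrc⟩, hq⟩, hy⟩, ho⟩, hh⟩, h⟩ := h
  refine ⟨hn, hrc, hq, hy, ho, hh, fun p hp => (h p hp).1, fun p hp i hi hpi => ?_,
    fun i hi p hp => ?_, fun i hi p hp => ?_, fun i hi p hp => ?_, fun i hi p hp => ?_,
    fun i hi p hp => ?_⟩
  · have h1 := (h p hp).2 i hi
    simp only [hpi] at h1
    simpa using h1.1.1.1.1.1.1.1.1
  · have h1 := (h p hp).2 i (by omega)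
    rw [List.getD_eq_getElem _ _ hi] at h1
    exact ⟨h1.1.1.1.1.1.1.1.2, h1.1.1.1.1.1.1.2⟩
  · have h1 := (h p hp).2 i (by omega)
    rw [List.getD_eq_getElem m.q _ hi] at h1
    refine ⟨fun h2 => ?_, fun h2 => ?_⟩
    · have h3 := h1.1.1.1.1.1.2
      rw [h2] at h3
      simpa using h3
    · have h3 := h1.1.1.1.1.2
      rcases h3 with ⟨h4, h5⟩ | h3
      · rw [h2 h4] at h5
        cases h5
      · exact h3
  · have h1 := (h p hp).2 i (by omega)
    rw [List.getD_eq_getElem m.y _ hi] at h1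
    exact ⟨h1.1.1.1.2, h1.1.1.2⟩
  · have h1 := (h p hp).2 i (by omega)
    rw [List.getD_eq_getElem m.o _ hi] at h1
    exact h1.1.2
  · have h1 := (h p hp).2 i (by omega)
    rw [List.getD_eq_getElem m.h _ hi] at h1
    exact h1.2

theorem stM_zero (ms : List (ℕ × ℕ)) (full n e f : ℕ) : stM ms full n e f 0 = full := by
  cases f <;> rfl

/-- the final step -/
theorem mac_of_check (hm : m.Ok) {T : Tr} {r fuel z : ℕ} (hT : Good m fuel r T)
    (h : chkE m T fuel 0 z = true) (a : Fin m.k → Bool) : Mac (r + 1) [] a := by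
  have h1 := W_step hm hT h
  rw [stM_zero] at h1
  exact h1 (Equiv.refl _) a [] fun y U p hp _ => hm.full p hp.1

end Pool.Agent.H93.DP
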