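import Pool.Agent.H93.DP.Run2
import Pool.Agent.H93.DP.Sound
set_option autoImplicit false

/-!
# A checker for certificates of the macro game with costs
-/

namespace Pool.Agent.H93.DP

open Finset

/-! ## The checker -/

/-- trees of entries: a leaf holds the records, the value and the data of the strategy -/
inductive Tv : Type
  | lf (n v z : ℕ) : Tv
  | nd (l r : Tv) : Tv

/-- the records of an entry -/
def Tv.get : Tv → ℕ → ℕ
  | .lf n _ _, i => cond (Nat.beq i 0) n 0
  | .nd l r, i => cond (Nat.beq (Nat.mod i 2) 1) (r.get (Nat.div i 2)) (l.get (Nat.div i 2))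

/-- the value of an entry -/
def Tv.val : Tv → ℕ → ℕ
  | .lf _ v _, _ => v
  | .nd l r, i => cond (Nat.beq (Nat.mod i 2) 1) (r.val (Nat.div i 2)) (l.val (Nat.div i 2))

/-- the mask of the protocol with the sets `J` and `P` -/
def jpM (full : ℕ) : List (ℕ × ℕ) → List (ℕ × ℕ) → ℕ → ℕ → ℕ
  | q :: qs, o :: os, J, P => Nat.land
      (cond (Nat.beq (Nat.mod J 2) 1) o.1 (cond (Nat.beq (Nat.mod P 2) 1) q.2 q.1))
      (jpM full qs os (Nat.div J 2) (Nat.div P 2))
  | [], _, _, _ => full
  | _ :: _, [], _, _ => full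

/-- the number of elements of the set `J` -/
def pcM : ℕ → ℕ → ℕ
  | 0, _ => 0
  | f + 1, J => Nat.add (Nat.mod J 2) (pcM f (Nat.div J 2))

/-- check the responses coded by `D` -/
def chkR2 (m : Msk) (T : Tv) (fuel SE v : ℕ) : ℕ → ℕ → ℕ → Bool
  | 0, _, Rem => Nat.beq (Nat.land Rem m.l1) 0
  | f + 1, D, Rem => cond (Nat.beq D 0) (Nat.beq (Nat.land Rem m.l1) 0)
      (Nat.ble (T.val (Nat.mod (Nat.shiftRight D 40) 65536)) v &&
      (chkW m fuel SE (Nat.mod D m.n) (Nat.mod (Nat.div D m.n) m.n)
        (Nat.mod (Nat.div D (Nat.mul m.n m.n)) 8)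
        (digits8 m.k (Nat.div D (Nat.mul (Nat.mul m.n m.n) 8)))
        (T.get (Nat.mod (Nat.shiftRight D 40) 65536)) &&
      chkR2 m T fuel SE v f (Nat.shiftRight D 56)
        (Nat.xor Rem (Nat.land Rem (regM m (Nat.mod D m.n) (Nat.mod (Nat.div D m.n) m.n)
          (Nat.mod (Nat.div D (Nat.mul m.n m.n)) 8))))))

/-- check an entry with records `X` and value `v`, the data `z` hold the sets `J`, `P` and the
responses -/
def chkE2 (m : Msk) (wl : List ℕ) (T : Tv) (fuel X v z : ℕ) : Bool :=
  Nat.ble 1 (wl.getD (pcM m.k z) 0) && (Nat.ble (wl.getD (pcM m.k z) 0) v &&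
    chkR2 m T fuel (stM m.rc m.full m.n 0 fuel X) (Nat.sub v (wl.getD (pcM m.k z) 0)) 64
      (Nat.div (Nat.div z m.n) m.n)
      (Nat.land (stM m.rc m.full m.n 0 fuel X) (jpM m.full m.q m.o z (Nat.div z m.n))))

/-- check all entries of a tree -/
def chkT2 (m : Msk) (wl : List ℕ) (T : Tv) (fuel : ℕ) : Tv → Bool
  | .lf n v z => cond (Nat.beq n 0) true (chkE2 m wl T fuel n v z)
  | .nd l r => chkT2 m wl T fuel l && chkT2 m wl T fuel r

/-! ## Soundness -/

theorem macV_mono {K : Type} [DecidableEq K] {w : ℕ → ℕ} (r : ℕ) {v v' : ℕ} (h : v ≤ v')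
    {E : List ((K → Bool) × Finset K)} {a : K → Bool} (hm : MacV w r v E a) :
    MacV w r v' E a := by
  cases r with
  | zero => exact hm
  | succ r =>
    obtain ⟨J, P, u, hu, hP⟩ := hm
    exact ⟨J, P, u, hu.trans h, hP⟩

theorem jpM_spec (full : ℕ) : ∀ (qs os : List (ℕ × ℕ)) (J P p : ℕ), full.testBit p = true →
    qs.length = os.length → ((jpM full qs os J P).testBit p = true ↔
      ∀ (j : ℕ) (h : j < qs.length) (h' : j < os.length),
        (if J.testBit j = true then os[j].1 else
          if P.testBit j = true then qs[j].2 else qs[j].1).testBit p = true) := by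
  intro qs
  induction qs with
  | nil =>
    intro os J P p hp _
    simp [jpM, hp]
  | cons q qs ih =>
    intro os J P p hp hlen
    rcases os with _ | ⟨o, os⟩
    · simp at hlen
    have hlen' : qs.length = os.length := by simpa using hlen
    have h1 : (jpM full (q :: qs) (o :: os) J P).testBit p =
        ((cond (Nat.beq (Nat.mod J 2) 1) o.1 (cond (Nat.beq (Nat.mod P 2) 1) q.2 q.1)).testBit p &&
        (jpM full qs os (J / 2) (P / 2)).testBit p) := Nat.testBit_and _ _ _
    have h2 : (cond (Nat.beq (Nat.mod J 2) 1) o.1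
        (cond (Nat.beq (Nat.mod P 2) 1) q.2 q.1)).testBit p =
        (if J.testBit 0 = true then o.1 else
          if P.testBit 0 = true then q.2 else q.1).testBit p := by
      rw [cond_testBit]
      by_cases h : J.testBit 0 = true
      · rw [if_pos h, if_pos h]
      · rw [if_neg h, if_neg h, cond_testBit]
    rw [h1, Bool.and_eq_true, h2, ih _ _ _ _ hp hlen']
    constructor
    · rintro ⟨h3, h4⟩ j hj hj'
      rcases j with _ | j
      · exact h3
      · have := h4 j (by simpa using hj) (by simpa using hj')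
        rw [Nat.testBit_succ, Nat.testBit_succ]
        exact this
    · intro h
      refine ⟨h 0 (by simp) (by simp), fun j hj hj' => ?_⟩
      have := h (j + 1) (by simpa using hj) (by simpa using hj')
      rw [Nat.testBit_succ, Nat.testBit_succ] at this
      exact this

theorem pcM_spec : ∀ (k J : ℕ), pcM k J = (univ.filter fun i : Fin k => J.testBit i = true).card := by
  intro k
  induction k with
  | zero =>
    intro J
    simp [pcM]
  | succ k ih =>
    intro J
    have h1 : pcM (k + 1) J = J % 2 + pcM k (J / 2) := rfl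
    rw [h1, ih, Fin.card_filter_univ_succ']
    have h2 : (if J.testBit ((0 : Fin (k + 1)) : ℕ) = true then 1 else 0) = J % 2 := by
      change (if J.testBit 0 = true then 1 else 0) = J % 2
      rw [Nat.testBit_zero]
      rcases Nat.mod_two_eq_zero_or_one J with h | h <;> rw [h] <;> rfl
    rw [h2]
    congr 2
    ext i
    simp only [mem_filter, mem_univ, true_and, Fin.val_succ]
    rw [Nat.testBit_succ]

variable {m : Msk}

/-- at most `r` runs with cost at most `v` are enough if only the pairs in `S` are compatible with the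
records -/
def W2 (k : ℕ) (w : ℕ → ℕ) (r v S : ℕ) : Prop :=
  ∀ (σ : Fin k ≃ Fin k) (c : Fin k → Bool) (E : List ((Fin k → Bool) × Finset (Fin k))),
    Fits σ c E S → MacV w r v E c

/-- the code of the position after a move -/
theorem fits_child (hm : m.Ok) {fuel SE b O d Y : ℕ} {τ : List ℕ} (hτ : τ.length = m.k)
    (hchk : chkW m fuel SE b O d τ Y = true)
    {σ : Fin m.k ≃ Fin m.k} {c : Fin m.k → Bool}
    {E : List ((Fin m.k → Bool) × Finset (Fin m.k))} (hE : Fits σ c E SE)
    {b' : Fin m.k → Bool} {O' : Finset (Fin m.k)} {p : ℕ} (hp : Code σ c b' O' p)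
    (hd : d < m.k) (hb : ∀ i, i < m.k → p.testBit (m.k + i) = b.testBit i)
    (hO : ∀ i, i < m.k → p.testBit i = true → O.testBit i = true) :
    ∃ σ' : Fin m.k ≃ Fin m.k, Fits σ' (flip b' (σ ⟨d, hd⟩)) ((b', O') :: E)
      (stM m.rc m.full m.n 0 fuel Y) := by
  unfold chkW at hchk
  rw [Bool.and_eq_true, Bool.and_eq_true] at hchk
  obtain ⟨h1, -, h2⟩ := hchk
  have h1 : orM τ = 2 ^ m.k - 1 := by
    rw [← hm.hn]
    exact beq_eq h1
  have h2 := beq_eq h2
  obtain ⟨ρ, hρ⟩ := exists_perm hτ h1
  refine ⟨ρ.trans σ, ?_⟩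
  intro y U q' hq' hcomp
  obtain ⟨q, hq⟩ := exists_code σ c y U
  have h3 : SE.testBit q = true := hE y U q hq (hcomp.mono fun p hp => List.mem_cons_of_mem _ hp)
  have h4 : (recM m.rc b O).testBit q = true := by
    obtain ⟨i', hi1, hi2, hi3⟩ := hcomp (b', O') List.mem_cons_self
    rw [recM_spec]
    have hi4 := (σ.symm i').2
    have hi5 : (σ.symm i' : ℕ) < m.rc.length := by
      rw [hm.hrc]
      exact hi4
    obtain ⟨h5, h6⟩ := hm.rc _ hi5 q hq.1
    have h7 := hp.2 (σ.symm i')
    have h8 := hq.2 (σ.symm i')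
    rw [Equiv.apply_symm_apply] at h7 h8
    have h9 : p.testBit (σ.symm i') = true := by
      rw [h7.1]
      simpa using hi1
    have h10 : q.testBit (σ.symm i') = false := by
      rw [h8.1]
      simpa using hi3
    refine ⟨σ.symm i', hi5, hO _ hi4 h9, ?_⟩
    have h11 := hb _ hi4
    rw [h7.2] at h11
    rw [← h11]
    have h12 := h8.2
    simp only at hi2
    by_cases h13 : xor (b' i') (c i') = true
    · rw [if_pos h13, h6, h10, h12]
      revert hi2 h13
      cases b' i' <;> cases y i' <;> cases c i' <;> simp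
    · rw [if_neg h13, h5, h10, h12]
      revert hi2 h13
      cases b' i' <;> cases y i' <;> cases c i' <;> simp
  have h5 : (Nat.land SE (recM m.rc b O)).testBit q = true := by
    rw [land_testBit, h3, h4]
    rfl
  have h6 : (stM (τ.map fun t => m.rc.getD t (0, 0)) m.full m.n
      (eM (Nat.xor b (Nat.shiftLeft 1 d)) τ) fuel Y).testBit q = true := by
    rw [← h2] at h5
    rw [land_testBit, Bool.and_eq_true] at h5
    exact h5.2
  rw [← h6]
  symm
  apply stM_eq (hm.full q hq.1) (hm.full q' hq'.1)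
  intro b1 O1
  apply recM_perm hm ρ hτ hρ hq.1 hq'.1
  · intro i
    rw [(hq'.2 i).1, (hq.2 (ρ i)).1]
    rfl
  · intro i
    rw [(hq'.2 i).2, (hq.2 (ρ i)).2, eM_spec _ _ _ (by rw [hτ]; exact i.2), hρ i]
    have h7 : (Nat.xor b (Nat.shiftLeft 1 d)).testBit (ρ i) =
        xor (b.testBit (ρ i)) ((1 <<< d).testBit (ρ i)) := Nat.testBit_xor _ _ _
    rw [h7, Nat.one_shiftLeft, Nat.testBit_two_pow]
    have h8 := hb _ (ρ i).2
    rw [(hp.2 (ρ i)).2] at h8
    rw [← h8]
    have h9 : flip b' (σ ⟨d, hd⟩) (σ (ρ i)) = xor (b' (σ (ρ i))) (decide (d = (ρ i : ℕ))) := by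
      by_cases h10 : d = (ρ i : ℕ)
      · have h11 : ρ i = ⟨d, hd⟩ := Fin.ext h10.symm
        rw [h11, flip_self]
        simp
      · rw [flip_ne]
        · simp [h10]
        · intro h11
          exact h10 (congrArg Fin.val (σ.injective h11)).symm
    change xor (y (σ (ρ i))) (flip b' (σ ⟨d, hd⟩) (σ (ρ i))) = _
    rw [h9]
    cases y (σ (ρ i)) <;> cases b' (σ (ρ i)) <;> cases c (σ (ρ i)) <;> simp

theorem chkR2_sound {T : Tv} {fuel SE v : ℕ} : ∀ (f D Rem : ℕ),
    chkR2 m T fuel SE v f D Rem = true →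
    ∀ p, Rem.testBit p = true → m.l1.testBit p = true →
      ∃ (b O d : ℕ) (τ : List ℕ) (i : ℕ), τ.length = m.k ∧ T.val i ≤ v ∧
        chkW m fuel SE b O d τ (T.get i) = true ∧ (regM m b O d).testBit p = true := by
  have hbase : ∀ Rem : ℕ, Nat.beq (Nat.land Rem m.l1) 0 = true → ∀ p, Rem.testBit p = true →
      m.l1.testBit p = true → False := by
    intro Rem h p h1 h2
    have h3 := congrArg (fun x => Nat.testBit x p) (beq_eq h)
    simp only [land_testBit, h1, h2, Nat.zero_testBit] at h3
    cases h3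
  intro f
  induction f with
  | zero =>
    intro D Rem h p h1 h2
    exact (hbase Rem h p h1 h2).elim
  | succ f ih =>
    intro D Rem h p h1 h2
    unfold chkR2 at h
    cases hD : Nat.beq D 0 with
    | true =>
      rw [hD] at h
      exact (hbase Rem h p h1 h2).elim
    | false =>
      rw [hD, cond_false, Bool.and_eq_true, Bool.and_eq_true] at h
      obtain ⟨h0, h3, h4⟩ := h
      by_cases hreg : (regM m (Nat.mod D m.n) (Nat.mod (Nat.div D m.n) m.n)
          (Nat.mod (Nat.div D (Nat.mul m.n m.n)) 8)).testBit p = true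
      · exact ⟨_, _, _, _, _, digits8_length _ _, Nat.le_of_ble_eq_true h0, h3, hreg⟩
      · apply ih _ _ h4 p _ h2
        have h5 : ∀ x y : ℕ, (Nat.xor x y).testBit p = xor (x.testBit p) (y.testBit p) :=
          fun x y => Nat.testBit_xor x y p
        rw [h5, land_testBit, h1]
        simpa using hreg

/-- one entry of the certificate -/
theorem W2_step (hm : m.Ok) {wl : List ℕ} {T : Tv} {r fuel X v z : ℕ} (hv : v ≤ r + 1)
    (hT : ∀ i, T.get i ≠ 0 → T.val i ≤ r →
      W2 m.k (fun j => wl.getD j 0) r (T.val i) (stM m.rc m.full m.n 0 fuel (T.get i)))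
    (h : chkE2 m wl T fuel X v z = true) :
    W2 m.k (fun j => wl.getD j 0) (r + 1) v (stM m.rc m.full m.n 0 fuel X) := by
  intro σ c E hE
  unfold chkE2 at h
  rw [Bool.and_eq_true, Bool.and_eq_true] at h
  obtain ⟨hw1, hw2, h⟩ := h
  have hw1 := Nat.le_of_ble_eq_true hw1
  have hw2 := Nat.le_of_ble_eq_true hw2
  set w := wl.getD (pcM m.k z) 0 with hw
  have hcard : (univ.filter fun d => z.testBit (σ.symm d) = true).card = pcM m.k z := by
    have hmap : (univ.filter fun d => z.testBit (σ.symm d) = true) =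
        (univ.filter fun i : Fin m.k => z.testBit i = true).map σ.toEmbedding := by
      ext i
      simp only [mem_filter, mem_univ, true_and, mem_map, Equiv.coe_toEmbedding]
      constructor
      · intro hi
        exact ⟨σ.symm i, hi, by simp⟩
      · rintro ⟨j, hj, rfl⟩
        simpa using hj
    rw [hmap, card_map, pcM_spec]
  refine ⟨univ.filter fun d => z.testBit (σ.symm d) = true,
    univ.filter fun d => (Nat.div z m.n).testBit (σ.symm d) = true, v - w, ?_, ?_⟩
  · rw [hcard]
    change w + (v - w) ≤ v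
    omega
  intro b' O' h1 h2 h2' h3
  by_cases hO : O' = ∅
  · exact Or.inl hO
  right
  obtain ⟨p, hp⟩ := exists_code σ c b' O'
  have h4 : (stM m.rc m.full m.n 0 fuel X).testBit p = true := hE b' O' p hp h3
  have h5 : (jpM m.full m.q m.o z (Nat.div z m.n)).testBit p = true := by
    rw [jpM_spec _ _ _ _ _ _ (hm.full p hp.1) (by rw [hm.hq, hm.ho])]
    intro j hj hjo
    have hj' : j < m.k := by rw [← hm.hq]; exact hj
    have h6 := hp.2 ⟨j, hj'⟩
    simp only at h6
    obtain ⟨h7, h8⟩ := hm.q j hj p hp.1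
    by_cases hJ : z.testBit j = true
    · rw [if_pos hJ, hm.o j hjo p hp.1, h6.1]
      have h10 := h2' (σ ⟨j, hj'⟩) (by simpa using hJ)
      simpa using h10
    rw [if_neg hJ]
    by_cases hP : (Nat.div z m.n).testBit j = true
    · rw [if_pos hP]
      apply h8
      intro h9
      rw [h6.1] at h9
      have h10 := h2 (σ ⟨j, hj'⟩) (by simpa using hP) (by simpa using h9)
      rw [h6.2]
      revert h10
      cases b' (σ ⟨j, hj'⟩) <;> cases c (σ ⟨j, hj'⟩) <;> simp
    · rw [if_neg hP]
      apply h7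
      have h10 := h1 (σ ⟨j, hj'⟩) (by simpa using hJ) (by simpa using hP)
      rw [h6.2, h10]
      simp
  obtain ⟨e, he⟩ := nonempty_iff_ne_empty.2 hO
  have h6 : p.testBit (σ.symm e) = true := by
    rw [(hp.2 (σ.symm e)).1]
    simpa using he
  have h7 : m.l1.testBit p = true := hm.l1 p hp.1 _ (σ.symm e).2 h6
  have h8 : (Nat.land (stM m.rc m.full m.n 0 fuel X)
      (jpM m.full m.q m.o z (Nat.div z m.n))).testBit p = true := by
    rw [land_testBit, h4, h5]
    rfl
  obtain ⟨b, O, d, τ, i, hτ, hvi, h9, h10⟩ := chkR2_sound _ _ _ h p h8 h7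
  obtain ⟨hd, hb, hO, hpd⟩ := regM_spec hm hp.1 h10
  refine ⟨σ ⟨d, hd⟩, ?_, ?_⟩
  · have h11 := (hp.2 ⟨d, hd⟩).1
    simp only at h11
    rw [hpd] at h11
    simpa using h11.symm
  · have hY : T.get i ≠ 0 := by
      intro h11
      unfold chkW at h9
      rw [h11] at h9
      simp at h9
    have hvi' : T.val i ≤ v - w := hvi
    obtain ⟨σ', hσ'⟩ := fits_child hm hτ h9 hE hp hd hb hO
    have h12 := hT i hY (by omega) σ' _ _ hσ'
    exact macV_mono _ hvi' h12

theorem chkT2_entry {wl : List ℕ} {T : Tv} {fuel : ℕ} : ∀ {T' : Tv},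
    chkT2 m wl T fuel T' = true → ∀ i, T'.get i ≠ 0 →
      ∃ z, chkE2 m wl T fuel (T'.get i) (T'.val i) z = true := by
  intro T'
  induction T' with
  | lf n v z =>
    intro h i hi
    have h1 : Tv.get (.lf n v z) i = cond (Nat.beq i 0) n 0 := rfl
    cases h2 : Nat.beq i 0 with
    | false =>
      rw [h1, h2] at hi
      exact absurd rfl hi
    | true =>
      rw [h1, h2] at hi ⊢
      have h3 : Nat.beq n 0 = false := by
        cases h4 : Nat.beq n 0 with
        | false => rfl
        | true => exact absurd (beq_eq h4) hi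
      have h4 : chkT2 m wl T fuel (.lf n v z) =
        cond (Nat.beq n 0) true (chkE2 m wl T fuel n v z) := rfl
      rw [h4, h3] at h
      exact ⟨z, h⟩
  | nd l r ihl ihr =>
    intro h i
    have h1 : chkT2 m wl T fuel (.nd l r) = (chkT2 m wl T fuel l && chkT2 m wl T fuel r) := rfl
    rw [h1, Bool.and_eq_true] at h
    have h2 : Tv.get (.nd l r) i = cond (Nat.beq (Nat.mod i 2) 1) (r.get (Nat.div i 2))
      (l.get (Nat.div i 2)) := rfl
    have h3 : Tv.val (.nd l r) i = cond (Nat.beq (Nat.mod i 2) 1) (r.val (Nat.div i 2))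
      (l.val (Nat.div i 2)) := rfl
    rw [h2, h3]
    cases Nat.beq (Nat.mod i 2) 1 with
    | false => exact ihl h.1 _
    | true => exact ihr h.2 _

theorem good2 (hm : m.Ok) {wl : List ℕ} {T : Tv} {fuel : ℕ} (h : chkT2 m wl T fuel T = true) :
    ∀ r i, T.get i ≠ 0 → T.val i ≤ r →
      W2 m.k (fun j => wl.getD j 0) r (T.val i) (stM m.rc m.full m.n 0 fuel (T.get i)) := by
  intro r
  induction r with
  | zero =>
    intro i hi hv
    exfalso
    obtain ⟨z, hz⟩ := chkT2_entry h i hi
    unfold chkE2 at hz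
    rw [Bool.and_eq_true, Bool.and_eq_true] at hz
    obtain ⟨hw1, hw2, -⟩ := hz
    have hw1 := Nat.le_of_ble_eq_true hw1
    have hw2 := Nat.le_of_ble_eq_true hw2
    omega
  | succ r ih =>
    intro i hi hv
    obtain ⟨z, hz⟩ := chkT2_entry h i hi
    exact W2_step hm hv ih hz

/-- the result of the checker -/
theorem macV_of_check (hm : m.Ok) {wl : List ℕ} {T : Tv} {fuel v z : ℕ}
    (h : chkT2 m wl T fuel T = true) (hz : chkE2 m wl T fuel 0 v z = true)
    (a : Fin m.k → Bool) : MacV (fun j => wl.getD j 0) (v + 1) v [] a := by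
  have h1 := W2_step hm (Nat.le_succ v) (good2 hm h v) hz
  rw [stM_zero] at h1
  exact h1 (Equiv.refl _) a [] fun y U p hp _ => hm.full p hp.1

theorem chkT2_nd {wl : List ℕ} {T l r : Tv} {fuel : ℕ} (hl : chkT2 m wl T fuel l = true)
    (hr : chkT2 m wl T fuel r = true) : chkT2 m wl T fuel (.nd l r) = true := by
  have h1 : chkT2 m wl T fuel (.nd l r) = (chkT2 m wl T fuel l && chkT2 m wl T fuel r) := rfl
  rw [h1, hl, hr]
  rfl

end Pool.Agent.H93.DP
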