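import Mathlib
set_option autoImplicit false

/-!
# Abstract objective functions on cubes: definitions
-/

namespace Pool.Agent.H93.DP

open Finset

variable {ι : Type} [DecidableEq ι]

/-- the neighbour of the vertex `x` of the cube in direction `i` -/
def flip (x : ι → Bool) (i : ι) : ι → Bool := Function.update x i (!x i)

/-- `f` has exactly one local maximum on every face -/
def OneMax (f : (ι → Bool) → ℝ) : Prop :=
  ∀ (U : Finset ι) (x : ι → Bool), ∃! y : ι → Bool,
    (∀ i, i ∉ U → y i = x i) ∧ ∀ i ∈ U, f (flip y i) < f y

/-- the set of the improving directions at the vertex `x` -/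
noncomputable def improving [Fintype ι] (f : (ι → Bool) → ℝ) (x : ι → Bool) : Finset ι :=
  univ.filter fun i => f x < f (flip x i)

/-- the list of the pairs (visited vertex, its set of improving directions) for `w t, …, w 0` -/
noncomputable def seen [Fintype ι] (f : (ι → Bool) → ℝ) (w : ℕ → ι → Bool) :
    ℕ → List ((ι → Bool) × Finset ι)
  | 0 => [(w 0, improving f (w 0))]
  | t + 1 => (w (t + 1), improving f (w (t + 1))) :: seen f w t

end Pool.Agent.H93.DP
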