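import Pool.Agent.H93.DP.Aof
import Pool.Agent.H93.DP.Cert5
set_option autoImplicit false

/-!
# A deterministic pivot rule
-/

namespace Pool.Agent.H93.DP

open Finset

/-- the number of steps on the `5 m`-cube -/
def steps : ℕ → ℕ
  | 0 => 0
  | m + 1 => 11 * (steps m + 5 + 1)

theorem steps_eq (m : ℕ) : 5 * steps m + 33 = 33 * 11 ^ m := by
  induction m with
  | zero => rfl
  | succ m ih =>
    unfold steps
    rw [pow_succ]
    omega

theorem winAll_steps (m : ℕ) : ∃ (ι : Type) (_ : DecidableEq ι) (_ : Fintype ι),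
    Fintype.card ι = 5 * m ∧ WinAll ι (steps m) := by
  induction m with
  | zero =>
    refine ⟨Fin 0, inferInstance, inferInstance, by simp, ?_⟩
    intro x s _
    exact eq_empty_of_forall_notMem fun i => i.elim0
  | succ m ih =>
    obtain ⟨ι, _, _, hcard, hw⟩ := ih
    refine ⟨ι ⊕ Fin 5, inferInstance, inferInstance, ?_, ?_⟩
    · rw [Fintype.card_sum, hcard, Fintype.card_fin]
      ring
    · have h : ∀ a : Fin 5 → Bool, Mac 11 [] a := mac5
      exact WinAll.sum (k := 5) hw (by simp) h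

theorem winAll_fin {n m : ℕ} (h : n ≤ 5 * m) : WinAll (Fin n) (steps m) := by
  obtain ⟨ι, _, _, hcard, hw⟩ := winAll_steps m
  have h1 : Fintype.card (Fin n) ≤ Fintype.card ι := by
    rw [Fintype.card_fin, hcard]
    exact h
  obtain ⟨e⟩ := Function.Embedding.nonempty_of_card_le h1
  exact hw.restrict e

theorem steps_le (n : ℕ) : (steps ((n + 4) / 5) : ℝ) ≤ 45 * (11 : ℝ) ^ ((n : ℝ) / 5) := by
  have h1 := steps_eq ((n + 4) / 5)
  have h2 : (5 : ℝ) * steps ((n + 4) / 5) + 33 = 33 * 11 ^ ((n + 4) / 5) := by exact_mod_cast h1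
  have h3 : ((11 : ℝ) ^ ((n + 4) / 5) : ℝ) ≤ (11 : ℝ) ^ (((n : ℝ) + 4) / 5) := by
    rw [← Real.rpow_natCast]
    apply Real.rpow_le_rpow_of_exponent_le (by norm_num)
    have : ((((n + 4) / 5 : ℕ) : ℝ)) ≤ ((n + 4 : ℕ) : ℝ) / 5 := Nat.cast_div_le
    push_cast at this
    exact this
  have h4 : (11 : ℝ) ^ (((n : ℝ) + 4) / 5) = (11 : ℝ) ^ ((n : ℝ) / 5) * (11 : ℝ) ^ ((4 : ℝ) / 5) := by
    rw [← Real.rpow_add (by norm_num)]
    congr 1
    ring
  have h5 : (11 : ℝ) ^ ((4 : ℝ) / 5) ≤ 6.81 := by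
    have h6 : ((11 : ℝ) ^ ((4 : ℝ) / 5)) ^ (5 : ℕ) = 11 ^ 4 := by
      rw [← Real.rpow_natCast, ← Real.rpow_mul (by norm_num)]
      norm_num
    have h7 : (0 : ℝ) ≤ 6.81 := by norm_num
    by_contra hcon
    push Not at hcon
    have h8 := pow_lt_pow_left₀ hcon h7 (n := 5) (by norm_num)
    rw [h6] at h8
    norm_num at h8
  have h6 : (0 : ℝ) < (11 : ℝ) ^ ((n : ℝ) / 5) := Real.rpow_pos_of_pos (by norm_num) _
  rw [h4] at h3
  nlinarith

/-- the bound for a deterministic rule -/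
theorem exists_fast_rule (n : ℕ) (hn : 0 < n) :
    ∃ rule : List ((Fin n → Bool) × Finset (Fin n)) → Fin n,
      (∀ (x : Fin n → Bool) (S : Finset (Fin n)) (l : List ((Fin n → Bool) × Finset (Fin n))),
        S.Nonempty → rule ((x, S) :: l) ∈ S) ∧
      ∀ (f : (Fin n → Bool) → ℝ), Function.Injective f → OneMax f →
        ∀ w : ℕ → Fin n → Bool,
          (∀ t, (improving f (w t)).Nonempty → w (t + 1) = flip (w t) (rule (seen f w t))) →
          ∃ L : ℕ, (L : ℝ) ≤ 45 * (11 : ℝ) ^ ((n : ℝ) / 5) ∧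
            (∀ t < L, (improving f (w t)).Nonempty) ∧ improving f (w L) = ∅ ∧
            ∀ x, f x ≤ f (w L) := by
  have : Nonempty (Fin n) := ⟨⟨0, hn⟩⟩
  obtain ⟨rule, h1, h2⟩ := exists_rule (winAll_fin (n := n) (m := (n + 4) / 5) (by omega))
  refine ⟨rule, h1, fun f hf hU w hw => ?_⟩
  obtain ⟨L', hL, hL'⟩ := h2 f hf hU w hw
  have hex : ∃ L, improving f (w L) = ∅ := ⟨L', hL'⟩
  classical
  refine ⟨Nat.find hex, ?_, fun t ht => nonempty_iff_ne_empty.2 (Nat.find_min hex ht),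
    Nat.find_spec hex, max_of_improving hf hU (Nat.find_spec hex)⟩
  calc (Nat.find hex : ℝ) ≤ (steps ((n + 4) / 5) : ℝ) := by
        exact_mod_cast (Nat.find_min' hex hL').trans hL
    _ ≤ _ := steps_le n

end Pool.Agent.H93.DP
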