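import Pool.Agent.H93.DP.Aof
import Pool.Agent.H93.DP.CertL
set_option autoImplicit false

/-!
# A deterministic pivot rule with `O(1.6026 ^ n)` steps
-/

namespace Pool.Agent.H93.DP

open Finset

/-! ## Small cubes -/

theorem mac_one (a : Fin 1 → Bool) : Mac 2 [] a := by
  have h1 : ∀ O : Finset (Fin 1), O = ∅ ∨ O = {0} := by decide
  refine ⟨∅, fun b O hb _ _ => ?_⟩
  rcases h1 O with h | h
  · exact Or.inl h
  right
  refine ⟨0, by rw [h]; simp, ∅, fun b' O' hb' _ hc => ?_⟩
  left
  obtain ⟨i, -, -, hi⟩ := hc (b, O) (by simp)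
  rcases h1 O' with h' | h'
  · exact h'
  · exfalso
    apply hi
    rw [h']
    simp [Subsingleton.elim i 0]

/-- the number of steps on small cubes -/
def small : ℕ → ℕ
  | 0 => 0
  | n + 1 => 2 * (small n + 1 + 1)

theorem winAll_small (n : ℕ) : WinAll (Fin n) (small n) := by
  induction n with
  | zero =>
    intro x s _
    exact eq_empty_of_forall_notMem fun i => i.elim0
  | succ n ih =>
    have h1 : WinAll (Fin n ⊕ Fin 1) (small (n + 1)) := WinAll.sum (k := 1) ih (by simp) mac_one
    exact h1.restrict (finSumFinEquiv (m := n) (n := 1)).symm.toEmbedding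

/-! ## All cubes -/

theorem wl_small : ∀ j : ℕ, j ≤ 4 →
    (100000 : ℝ) * (1.6026 : ℝ) ^ j ≤ ((wlCertL.getD j 0 : ℕ) : ℝ) := by
  intro j hj
  have h : j = 0 ∨ j = 1 ∨ j = 2 ∨ j = 3 ∨ j = 4 := by omega
  rcases h with rfl | rfl | rfl | rfl | rfl <;> norm_num [wlCertL]

theorem winAll_pow (n : ℕ) : WinAll (Fin n) ⌊(2100 : ℝ) * 1.6026 ^ n - 6⌋₊ := by
  induction n using Nat.strong_induction_on with
  | _ n ih =>
    have hpow : ∀ j : ℕ, (1 : ℝ) ≤ 1.6026 ^ j := fun j => one_le_pow₀ (by norm_num)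
    by_cases hn : n < 5
    · apply (winAll_small n).mono
      apply Nat.le_floor
      have h1 : (small n : ℝ) ≤ 60 := by
        have h2 : small n ≤ 60 := by
          have h : n = 0 ∨ n = 1 ∨ n = 2 ∨ n = 3 ∨ n = 4 := by omega
          rcases h with rfl | rfl | rfl | rfl | rfl <;> decide
        exact_mod_cast h2
      have := hpow n
      linarith
    · obtain ⟨p, rfl⟩ : ∃ p, n = p + 5 := ⟨n - 5, by omega⟩
      let N : ℕ → ℕ := fun j => ⌊(2100 : ℝ) * 1.6026 ^ (p + j) - 6⌋₊
      let w : ℕ → ℕ := fun j => wlCertL.getD j 0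
      have hcard : ∀ J : Finset (Fin 5), w J.card ≤ 1056833 → J.card ≤ 4 := by
        intro J hJ
        have h1 : J.card ≤ 5 := by simpa using card_le_univ J
        by_contra h2
        have h3 : J.card = 5 := by omega
        rw [h3] at hJ
        revert hJ
        decide
      have hWJ : ∀ J : Finset (Fin 5), w J.card ≤ 1056833 →
          WinAll (Fin p ⊕ {d // d ∈ J}) (N J.card) := by
        intro J hJ
        have h1 : Fintype.card (Fin p ⊕ {d // d ∈ J}) ≤ Fintype.card (Fin (p + J.card)) := by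
          simp
        obtain ⟨e⟩ := Function.Embedding.nonempty_of_card_le h1
        exact (ih (p + J.card) (by have := hcard J hJ; omega)).restrict e
      have hwJ : ∀ J : Finset (Fin 5), w J.card ≤ 1056833 →
          ((N J.card : ℝ) + Fintype.card (Fin 5) + 1) ≤
            ((2100 : ℝ) * 1.6026 ^ p / 100000) * w J.card := by
        intro J hJ
        have h1 : (N J.card : ℝ) ≤ (2100 : ℝ) * 1.6026 ^ (p + J.card) - 6 := by
          apply Nat.floor_le
          have := hpow (p + J.card)
          linarith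
        have h2 := wl_small J.card (hcard J hJ)
        have h3 : (0 : ℝ) < 2100 * 1.6026 ^ p / 100000 := by positivity
        have h4 := mul_le_mul_of_nonneg_left h2 h3.le
        rw [Fintype.card_fin]
        rw [pow_add] at h1
        have h5 : (2100 : ℝ) * 1.6026 ^ p / 100000 * (100000 * 1.6026 ^ J.card) =
          2100 * (1.6026 ^ p * 1.6026 ^ J.card) := by ring
        rw [h5] at h4
        push_cast
        linarith
      have hθ : (0 : ℝ) ≤ (2100 : ℝ) * 1.6026 ^ p / 100000 := by positivity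
      have h1 : WinAll (Fin p ⊕ Fin 5) ⌊((2100 : ℝ) * 1.6026 ^ p / 100000) * (1056833 : ℕ)⌋₊ := by
        intro X
        exact macV_sound (V := 1056833) hθ hWJ hwJ _ _ le_rfl [] X [] (certL_mac _)
          (fun p hp => by simp at hp)
      have h2 := h1.restrict (finSumFinEquiv (m := p) (n := 5)).symm.toEmbedding
      refine h2.mono (Nat.floor_le_floor ?_)
      have h3 := hpow p
      rw [pow_add]
      push_cast
      norm_num
      nlinarith

/-- the bound for a deterministic rule -/
theorem exists_fast_rule2 (n : ℕ) (hn : 0 < n) :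
    ∃ rule : List ((Fin n → Bool) × Finset (Fin n)) → Fin n,
      (∀ (x : Fin n → Bool) (S : Finset (Fin n)) (l : List ((Fin n → Bool) × Finset (Fin n))),
        S.Nonempty → rule ((x, S) :: l) ∈ S) ∧
      ∀ (f : (Fin n → Bool) → ℝ), Function.Injective f → OneMax f →
        ∀ w : ℕ → Fin n → Bool,
          (∀ t, (improving f (w t)).Nonempty → w (t + 1) = flip (w t) (rule (seen f w t))) →
          ∃ L : ℕ, (L : ℝ) ≤ 2100 * 1.6026 ^ n ∧
            (∀ t < L, (improving f (w t)).Nonempty) ∧ improving f (w L) = ∅ ∧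
            ∀ x, f x ≤ f (w L) := by
  have : Nonempty (Fin n) := ⟨⟨0, hn⟩⟩
  obtain ⟨rule, h1, h2⟩ := exists_rule (winAll_pow n)
  refine ⟨rule, h1, fun f hf hU w hw => ?_⟩
  obtain ⟨L', hL, hL'⟩ := h2 f hf hU w hw
  have hex : ∃ L, improving f (w L) = ∅ := ⟨L', hL'⟩
  classical
  refine ⟨Nat.find hex, ?_, fun t ht => nonempty_iff_ne_empty.2 (Nat.find_min hex ht),
    Nat.find_spec hex, max_of_improving hf hU (Nat.find_spec hex)⟩
  have h3 : (1 : ℝ) ≤ 1.6026 ^ n := one_le_pow₀ (by norm_num)
  calc (Nat.find hex : ℝ) ≤ (⌊(2100 : ℝ) * 1.6026 ^ n - 6⌋₊ : ℝ) := by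
        exact_mod_cast (Nat.find_min' hex hL').trans hL
    _ ≤ 2100 * 1.6026 ^ n - 6 := Nat.floor_le (by linarith)
    _ ≤ _ := by linarith

end Pool.Agent.H93.DP
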