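import Pool.Agent.H93.DP.Def
set_option autoImplicit false

/-!
# A game for deterministic pivot rules on abstract cubes

A pivot rule plays against an adversary. The adversary answers at each visited vertex `x` with the set
`s` of the improving directions; the only condition is that for each earlier record `(y, t)` some
direction `i ∈ t` with `y i ≠ x i` is not in `s`.
-/

namespace Pool.Agent.H93.DP

open Finset

variable {ι κ : Type} [DecidableEq ι] [DecidableEq κ]

theorem flip_self (x : ι → Bool) (i : ι) : flip x i i = !x i := by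
  simp [flip]

theorem flip_ne (x : ι → Bool) {i j : ι} (h : j ≠ i) : flip x i j = x j := by
  simp [flip, h]

theorem flip_flip (x : ι → Bool) (i : ι) : flip (flip x i) i = x := by
  unfold flip
  simp

theorem flip_ne_self (x : ι → Bool) (i : ι) : flip x i ≠ x := by
  intro h
  have := congrFun h i
  rw [flip_self] at this
  revert this
  cases x i <;> simp

/-- the answer `s` at `x` is compatible with the records `H` -/
def Comp (H : List ((ι → Bool) × Finset ι)) (x : ι → Bool) (s : Finset ι) : Prop :=
  ∀ p ∈ H, ∃ i, i ∈ p.2 ∧ p.1 i ≠ x i ∧ i ∉ s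

omit [DecidableEq ι] in
theorem Comp.mono {H H' : List ((ι → Bool) × Finset ι)} (h : ∀ p ∈ H, p ∈ H') {x : ι → Bool}
    {s : Finset ι} (hc : Comp H' x s) : Comp H x s := fun p hp => hc p (h p hp)

/-- the rule reaches the maximum within `N` steps, from `x` and after the records `H` -/
def Win : ℕ → List ((ι → Bool) × Finset ι) → (ι → Bool) → Prop
  | 0, H, x => ∀ s, Comp H x s → s = ∅
  | N + 1, H, x => ∀ s, Comp H x s → s = ∅ ∨ ∃ d ∈ s, Win N ((x, s) :: H) (flip x d)

theorem Win.succ : ∀ {N : ℕ} {H : List ((ι → Bool) × Finset ι)} {x : ι → Bool},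
    Win N H x → Win (N + 1) H x := by
  intro N
  induction N with
  | zero =>
    intro H x h s hs
    exact Or.inl (h s hs)
  | succ N ih =>
    intro H x h s hs
    rcases h s hs with h1 | ⟨d, hd, h1⟩
    · exact Or.inl h1
    · exact Or.inr ⟨d, hd, ih h1⟩

theorem Win.mono {N N' : ℕ} (h : N ≤ N') {H : List ((ι → Bool) × Finset ι)} {x : ι → Bool}
    (hw : Win N H x) : Win N' H x := by
  induction h with
  | refl => exact hw
  | step _ ih => exact ih.succ

theorem Win.anti : ∀ {N : ℕ} {H H' : List ((ι → Bool) × Finset ι)} {x : ι → Bool},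
    (∀ p ∈ H, p ∈ H') → Win N H x → Win N H' x := by
  intro N
  induction N with
  | zero =>
    intro H H' x h hw s hs
    exact hw s (hs.mono h)
  | succ N ih =>
    intro H H' x h hw s hs
    rcases hw s (hs.mono h) with h1 | ⟨d, hd, h1⟩
    · exact Or.inl h1
    · refine Or.inr ⟨d, hd, ih (fun p hp => ?_) h1⟩
      rcases List.mem_cons.1 hp with rfl | hp
      · exact List.mem_cons_self
      · exact List.mem_cons_of_mem _ (h p hp)

/-- the rule wins within `N` steps from every vertex -/
def WinAll (ι : Type) [DecidableEq ι] (N : ℕ) : Prop := ∀ x : ι → Bool, Win N [] x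

/-- the game on a subset of the directions -/
theorem Win.restrict (e : κ ↪ ι) :
    ∀ {N : ℕ} {H : List ((κ → Bool) × Finset κ)} {x : κ → Bool}
      {H' : List ((ι → Bool) × Finset ι)} {x' : ι → Bool},
      (∀ p' ∈ H', ∃ p ∈ H, (∀ k, p'.1 (e k) = p.1 k) ∧ p'.2 = p.2.map e) →
      (∀ k, x' (e k) = x k) → Win N H' x' → Win N H x := by
  have key : ∀ {H : List ((κ → Bool) × Finset κ)} {x : κ → Bool}
      {H' : List ((ι → Bool) × Finset ι)} {x' : ι → Bool},
      (∀ p' ∈ H', ∃ p ∈ H, (∀ k, p'.1 (e k) = p.1 k) ∧ p'.2 = p.2.map e) →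
      (∀ k, x' (e k) = x k) → ∀ s, Comp H x s → Comp H' x' (s.map e) := by
    intro H x H' x' hH hx s hs p' hp'
    obtain ⟨p, hp, h1, h2⟩ := hH p' hp'
    obtain ⟨i, hi, hne, his⟩ := hs p hp
    refine ⟨e i, ?_, ?_, ?_⟩
    · rw [h2]
      exact mem_map_of_mem e hi
    · rw [h1, hx]
      exact hne
    · intro h
      exact his ((mem_map' e).1 h)
  intro N
  induction N with
  | zero =>
    intro H x H' x' hH hx hw s hs
    have := hw _ (key hH hx s hs)
    exact (map_eq_empty).1 this
  | succ N ih =>
    intro H x H' x' hH hx hw s hs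
    rcases hw _ (key hH hx s hs) with h1 | ⟨d, hd, h1⟩
    · exact Or.inl ((map_eq_empty).1 h1)
    · obtain ⟨d', hd', rfl⟩ := mem_map.1 hd
      refine Or.inr ⟨d', hd', ih ?_ ?_ h1⟩
      · intro p' hp'
        rcases List.mem_cons.1 hp' with rfl | hp'
        · exact ⟨(x, s), List.mem_cons_self, hx, rfl⟩
        · obtain ⟨p, hp, h⟩ := hH p' hp'
          exact ⟨p, List.mem_cons_of_mem _ hp, h⟩
      · intro k
        by_cases hk : k = d'
        · subst hk
          rw [flip_self, flip_self, hx]
        · rw [flip_ne _ hk, flip_ne _ (fun h => hk (e.injective h)), hx]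

theorem WinAll.restrict (e : κ ↪ ι) {N : ℕ} (h : WinAll ι N) : WinAll κ N := by
  classical
  intro x
  by_cases hκ : ∃ c : ι → Bool, ∀ k, c (e k) = x k
  · obtain ⟨c, hc⟩ := hκ
    exact Win.restrict e (H' := []) (x' := c) (by simp) hc (h c)
  · exfalso
    apply hκ
    refine ⟨fun i => if h : ∃ k, e k = i then x h.choose else false, fun k => ?_⟩
    have h : ∃ k', e k' = e k := ⟨k, rfl⟩
    simp only
    rw [dif_pos h]
    congr 1
    exact e.injective h.choose_spec

theorem WinAll.mono {N N' : ℕ} (hN : N ≤ N') (h : WinAll ι N) : WinAll ι N' :=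
  fun x => (h x).mono hN

end Pool.Agent.H93.DP
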