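import Pool.Agent.H93.DP.Game
set_option autoImplicit false

/-!
# Runs

The directions are split into `R` and `K`. A run keeps a strategy for the directions in `R` alive while
the directions of `K` are moved once at most; it ends at a vertex without improving direction in `R`.
The macro game `Mac` on the directions of `K` counts the runs.
-/

namespace Pool.Agent.H93.DP

open Finset

variable {R K : Type} [DecidableEq R] [DecidableEq K]

/-- the vertex of the product cube -/
def join (z : R → Bool) (a : K → Bool) : R ⊕ K → Bool := Sum.elim z a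

omit [DecidableEq R] [DecidableEq K] in
theorem join_inl (z : R → Bool) (a : K → Bool) (e : R) : join z a (Sum.inl e) = z e := rfl

omit [DecidableEq R] [DecidableEq K] in
theorem join_inr (z : R → Bool) (a : K → Bool) (d : K) : join z a (Sum.inr d) = a d := rfl

theorem flip_join_inl (z : R → Bool) (a : K → Bool) (e : R) :
    flip (join z a) (Sum.inl e) = join (flip z e) a := by
  funext i
  rcases i with i | i
  · by_cases h : i = e
    · subst h
      rw [flip_self, join_inl, join_inl, flip_self]
    · rw [flip_ne _ (fun h' => h (Sum.inl.inj h')), join_inl, join_inl, flip_ne _ h]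
  · rw [flip_ne _ (fun h' => by cases h'), join_inr, join_inr]

theorem flip_join_inr (z : R → Bool) (a : K → Bool) (d : K) :
    flip (join z a) (Sum.inr d) = join z (flip a d) := by
  funext i
  rcases i with i | i
  · rw [flip_ne _ (fun h' => by cases h'), join_inl, join_inl]
  · by_cases h : i = d
    · subst h
      rw [flip_self, join_inr, join_inr, flip_self]
    · rw [flip_ne _ (fun h' => h (Sum.inr.inj h')), join_inr, join_inr, flip_ne _ h]

/-- The macro game: `r` runs are enough from the vertex `a` and after the records `E`. The rule chooses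
a set `P` of directions which may be crossed once; the adversary chooses the vertex `b` reached and the
set `O` of improving directions there; directions in `P ∩ O` have been crossed. -/
def Mac : ℕ → List ((K → Bool) × Finset K) → (K → Bool) → Prop
  | 0, E, a => ∀ O, ¬ Comp E a O
  | r + 1, E, a => ∃ P : Finset K, ∀ (b : K → Bool) (O : Finset K),
      (∀ d, d ∉ P → b d = a d) → (∀ d ∈ P, d ∈ O → b d ≠ a d) → Comp E b O →
        O = ∅ ∨ ∃ d ∈ O, Mac r ((b, O) :: E) (flip b d)

/-- the records of `E` occur in `H`, with nothing improving in `R` -/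
def Emb (E : List ((K → Bool) × Finset K)) (H : List ((R ⊕ K → Bool) × Finset (R ⊕ K))) : Prop :=
  ∀ p ∈ E, ∃ z : R → Bool, (join z p.1, (∅ : Finset R).disjSum p.2) ∈ H

omit [DecidableEq R] [DecidableEq K] in
theorem Emb.comp {E : List ((K → Bool) × Finset K)} {H : List ((R ⊕ K → Bool) × Finset (R ⊕ K))}
    (h : Emb E H) {z : R → Bool} {x : K → Bool} {s : Finset (R ⊕ K)} (hs : Comp H (join z x) s) :
    Comp E x s.toRight := by
  intro p hp
  obtain ⟨z', hz'⟩ := h p hp
  obtain ⟨i, hi, hne, his⟩ := hs _ hz'
  rcases i with i | i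
  · simp at hi
  · refine ⟨i, ?_, hne, fun h' => his (mem_toRight.1 h')⟩
    simpa using hi

omit [DecidableEq R] [DecidableEq K] in
theorem Emb.cons {E : List ((K → Bool) × Finset K)} {H : List ((R ⊕ K → Bool) × Finset (R ⊕ K))}
    (h : Emb E H) (p : (R ⊕ K → Bool) × Finset (R ⊕ K)) : Emb E (p :: H) := by
  intro q hq
  obtain ⟨z, hz⟩ := h q hq
  exact ⟨z, List.mem_cons_of_mem _ hz⟩

/-- one run -/
theorem run_one {B r : ℕ} {E : List ((K → Bool) × Finset K)} {a : K → Bool} {P : Finset K}
    (hP : ∀ (b : K → Bool) (O : Finset K),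
      (∀ d, d ∉ P → b d = a d) → (∀ d ∈ P, d ∈ O → b d ≠ a d) → Comp E b O →
        O = ∅ ∨ ∃ d ∈ O, Mac r ((b, O) :: E) (flip b d))
    (hB : ∀ (E' : List ((K → Bool) × Finset K)) (b : K → Bool) (z : R → Bool)
      (H : List ((R ⊕ K → Bool) × Finset (R ⊕ K))), Mac r E' b → Emb E' H → Win B H (join z b)) :
    ∀ (m N' u : ℕ), N' + u = m → ∀ (z : R → Bool) (x : K → Bool)
      (HR : List ((R → Bool) × Finset R)) (H : List ((R ⊕ K → Bool) × Finset (R ⊕ K))),
      (∀ d, d ∉ P → x d = a d) → Emb E H →
      (∀ q ∈ HR, ∃ (xq : K → Bool) (Oq : Finset K), (join q.1 xq, q.2.disjSum Oq) ∈ H ∧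
        (∀ d ∈ Oq, x d = xq d) ∧ ∀ d ∈ Oq, d ∈ P → x d ≠ a d) →
      Win N' HR z → (P.filter fun d => x d = a d).card ≤ u →
      Win (B + 1 + m) H (join z x) := by
  intro m
  induction m using Nat.strong_induction_on with
  | _ m ih =>
    intro N' u hm z x HR H h1 h2 h3 h4 h5
    have hcomp : ∀ s : Finset (R ⊕ K), Comp H (join z x) s → Comp HR z s.toLeft := by
      intro s hs q hq
      obtain ⟨xq, Oq, hq1, hq2, -⟩ := h3 q hq
      obtain ⟨i, hi, hne, his⟩ := hs _ hq1
      rcases i with i | i
      · refine ⟨i, ?_, hne, fun h' => his (mem_toLeft.1 h')⟩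
        simpa using hi
      · exfalso
        apply hne
        change xq i = x i
        exact (hq2 i (by simpa using hi)).symm
    rw [show B + 1 + m = (B + m) + 1 by ring]
    intro s hs
    by_cases hs0 : s = ∅
    · exact Or.inl hs0
    right
    by_cases hA : ∃ d ∈ s.toRight, d ∈ P ∧ x d = a d
    · obtain ⟨d, hd, hdP, hda⟩ := hA
      refine ⟨Sum.inr d, mem_toRight.1 hd, ?_⟩
      rw [flip_join_inr]
      have hcard : (P.filter fun d' => flip x d d' = a d').card < u := by
        refine lt_of_lt_of_le (card_lt_card ⟨fun d' hd' => ?_, fun hsub => ?_⟩) h5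
        · rw [mem_filter] at hd' ⊢
          refine ⟨hd'.1, ?_⟩
          by_cases hdd : d' = d
          · rw [hdd]
            exact hda
          · rw [← hd'.2, flip_ne _ hdd]
        · have := hsub (mem_filter.2 ⟨hdP, hda⟩)
          rw [mem_filter, flip_self, ← hda] at this
          have := this.2
          revert this
          cases x d <;> simp
      refine (ih (m - 1) (by omega) N' (u - 1) (by omega) z (flip x d) HR _ ?_ (h2.cons _) ?_ h4
        (by omega)).mono (by omega)
      · intro d' hd'
        rw [flip_ne _ (fun h => hd' (by rw [h]; exact hdP))]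
        exact h1 d' hd'
      · intro q hq
        obtain ⟨xq, Oq, hq1, hq2, hq3⟩ := h3 q hq
        have hne : ∀ d' ∈ Oq, d' ≠ d := by
          intro d' hd' h
          subst h
          exact hq3 _ hd' hdP hda
        refine ⟨xq, Oq, List.mem_cons_of_mem _ hq1, fun d' hd' => ?_, fun d' hd' hd'P => ?_⟩
        · rw [flip_ne _ (hne d' hd')]
          exact hq2 d' hd'
        · rw [flip_ne _ (hne d' hd')]
          exact hq3 d' hd' hd'P
    · have hA' : ∀ d ∈ P, d ∈ s.toRight → x d ≠ a d := fun d hdP hds hda =>
        hA ⟨d, hds, hdP, hda⟩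
      by_cases hrs : s.toLeft = ∅
      · have hO : s = (∅ : Finset R).disjSum s.toRight := by
          rw [← hrs]
          exact toLeft_disjSum_toRight.symm
        rcases hP x s.toRight h1 hA' (h2.comp hs) with h | ⟨d, hd, hd'⟩
        · exfalso
          apply hs0
          rw [hO, h]
          simp
        · refine ⟨Sum.inr d, mem_toRight.1 hd, ?_⟩
          rw [flip_join_inr]
          refine (hB _ _ z ((join z x, s) :: H) hd' ?_).mono (by omega)
          intro q hq
          rcases List.mem_cons.1 hq with rfl | hq
          · refine ⟨z, ?_⟩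
            rw [← hO]
            exact List.mem_cons_self
          · exact h2.cons _ q hq
      · have hN : N' ≠ 0 := by
          rintro rfl
          exact hrs (h4 _ (hcomp s hs))
        obtain ⟨N'', rfl⟩ := Nat.exists_eq_succ_of_ne_zero hN
        rcases h4 _ (hcomp s hs) with h | ⟨e, he, hw⟩
        · exact absurd h hrs
        refine ⟨Sum.inl e, mem_toLeft.1 he, ?_⟩
        rw [flip_join_inl]
        refine (ih (m - 1) (by omega) N'' u (by omega) (flip z e) x ((z, s.toLeft) :: HR) _ h1
          (h2.cons _) ?_ hw h5).mono (by omega)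
        intro q hq
        rcases List.mem_cons.1 hq with rfl | hq
        · refine ⟨x, s.toRight, ?_, fun _ _ => rfl, fun d hd hdP => hA' d hdP hd⟩
          rw [toLeft_disjSum_toRight]
          exact List.mem_cons_self
        · obtain ⟨xq, Oq, hq1, hq2⟩ := h3 q hq
          exact ⟨xq, Oq, List.mem_cons_of_mem _ hq1, hq2⟩

/-- **The run lemma.** -/
theorem run_all {N k : ℕ} (hR : WinAll R N) [Fintype K] (hk : Fintype.card K ≤ k) :
    ∀ (r : ℕ) (E : List ((K → Bool) × Finset K)) (a : K → Bool) (z : R → Bool)
      (H : List ((R ⊕ K → Bool) × Finset (R ⊕ K))), Mac r E a → Emb E H →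
        Win (r * (N + k + 1)) H (join z a) := by
  intro r
  induction r with
  | zero =>
    intro E a z H hm hE
    rw [Nat.zero_mul]
    intro s hs
    exact absurd (hE.comp hs) (hm _)
  | succ r ih =>
    intro E a z H hm hE
    obtain ⟨P, hP⟩ := hm
    have h1 : (P.filter fun d => a d = a d).card ≤ k := (card_le_univ _).trans hk
    refine (run_one (R := R) hP (fun E' b z' H' => ih E' b z' H') (N + k) N k rfl z a [] H
      (fun _ _ => rfl) hE (by simp) (hR z) h1).mono ?_
    rw [Nat.succ_mul]
    omega

/-- `r` runs in the macro game from everywhere give `r (N + k + 1)` steps -/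
theorem WinAll.sum {N k r : ℕ} (hR : WinAll R N) [Fintype K] (hk : Fintype.card K ≤ k)
    (hM : ∀ a : K → Bool, Mac r [] a) : WinAll (R ⊕ K) (r * (N + k + 1)) := by
  intro x
  have hx : x = join (fun i => x (Sum.inl i)) (fun i => x (Sum.inr i)) := by
    funext i
    rcases i with i | i <;> rfl
  rw [hx]
  exact run_all hR hk r [] _ _ [] (hM _) (fun p hp => by simp at hp)

end Pool.Agent.H93.DP
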