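import Pool.Agent.H93.DP.Run
set_option autoImplicit false

/-!
# Runs on faces with more directions

The macro game `MacV` has runs of several types: a run on `R` and a set `J` of the directions of `K` has
the cost `w J.card`.
-/

namespace Pool.Agent.H93.DP

open Finset

section core

variable {ι A C : Type} [DecidableEq ι] [DecidableEq A] [DecidableEq C]

/-- one run: play the strategy on `A`, cross the directions of `P` once -/
theorem run_core (ε : A ⊕ C ≃ ι) {B : ℕ} {H0 : List ((ι → Bool) × Finset ι)} {a : C → Bool}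
    {P : Finset C}
    (hend : ∀ (H : List ((ι → Bool) × Finset ι)) (X : ι → Bool) (s : Finset ι),
      (∀ q ∈ H0, q ∈ H) → (∀ d, d ∉ P → X (ε (Sum.inr d)) = a d) →
      (∀ d ∈ P, ε (Sum.inr d) ∈ s → X (ε (Sum.inr d)) ≠ a d) →
      (∀ i, ε (Sum.inl i) ∉ s) → Comp H X s →
      s = ∅ ∨ ∃ d ∈ s, Win B ((X, s) :: H) (flip X d)) :
    ∀ (m N' u : ℕ), N' + u = m → ∀ (X : ι → Bool) (HR : List ((A → Bool) × Finset A))
      (H : List ((ι → Bool) × Finset ι)),
      (∀ d, d ∉ P → X (ε (Sum.inr d)) = a d) → (∀ q ∈ H0, q ∈ H) →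
      (∀ q ∈ HR, ∃ (Y : ι → Bool) (t : Finset ι), (Y, t) ∈ H ∧
        (∀ i, Y (ε (Sum.inl i)) = q.1 i) ∧ (∀ i, ε (Sum.inl i) ∈ t → i ∈ q.2) ∧
        (∀ d, ε (Sum.inr d) ∈ t → X (ε (Sum.inr d)) = Y (ε (Sum.inr d))) ∧
        ∀ d ∈ P, ε (Sum.inr d) ∈ t → X (ε (Sum.inr d)) ≠ a d) →
      Win N' HR (fun i => X (ε (Sum.inl i))) →
      (P.filter fun d => X (ε (Sum.inr d)) = a d).card ≤ u →
      Win (B + 1 + m) H X := by
  intro m
  induction m using Nat.strong_induction_on with
  | _ m ih =>
    intro N' u hm X HR H h1 h2 h3 h4 h5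
    rw [show B + 1 + m = (B + m) + 1 by ring]
    intro s hs
    by_cases hs0 : s = ∅
    · exact Or.inl hs0
    right
    have hinjA : Function.Injective fun i : A => ε (Sum.inl i) := fun i j h =>
      Sum.inl.inj (ε.injective h)
    let sA : Finset A := s.preimage (fun i : A => ε (Sum.inl i)) hinjA.injOn
    have hsA : ∀ i, i ∈ sA ↔ ε (Sum.inl i) ∈ s := fun i => mem_preimage
    have hcomp : Comp HR (fun i => X (ε (Sum.inl i))) sA := by
      intro q hq
      obtain ⟨Y, t, hq1, hq2, hq3, hq4, -⟩ := h3 q hq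
      obtain ⟨i, hi, hne, his⟩ := hs _ hq1
      obtain ⟨j, rfl⟩ := ε.surjective i
      rcases j with j | j
      · refine ⟨j, hq3 j hi, ?_, fun h' => his ((hsA j).1 h')⟩
        rw [← hq2 j]
        exact hne
      · exfalso
        exact hne (hq4 j hi).symm
    by_cases hA : ∃ d, ε (Sum.inr d) ∈ s ∧ d ∈ P ∧ X (ε (Sum.inr d)) = a d
    · obtain ⟨d, hd, hdP, hda⟩ := hA
      refine ⟨ε (Sum.inr d), hd, ?_⟩
      have hfl : ∀ j, j ≠ Sum.inr d → flip X (ε (Sum.inr d)) (ε j) = X (ε j) := fun j hj =>
        flip_ne _ (fun h => hj (ε.injective h))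
      have hinr : ∀ d', d' ≠ d → flip X (ε (Sum.inr d)) (ε (Sum.inr d')) = X (ε (Sum.inr d')) :=
        fun d' h => hfl _ (fun h' => h (Sum.inr.inj h'))
      have hinl : ∀ i, flip X (ε (Sum.inr d)) (ε (Sum.inl i)) = X (ε (Sum.inl i)) :=
        fun i => hfl _ (fun h' => by cases h')
      have hcard : (P.filter fun d' => flip X (ε (Sum.inr d)) (ε (Sum.inr d')) = a d').card < u := by
        refine lt_of_lt_of_le (card_lt_card ⟨fun d' hd' => ?_, fun hsub => ?_⟩) h5
        · rw [mem_filter] at hd' ⊢
          refine ⟨hd'.1, ?_⟩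
          by_cases hdd : d' = d
          · rw [hdd]
            exact hda
          · rw [← hd'.2, hinr _ hdd]
        · have := hsub (mem_filter.2 ⟨hdP, hda⟩)
          rw [mem_filter, flip_self, ← hda] at this
          have := this.2
          revert this
          cases X (ε (Sum.inr d)) <;> simp
      refine (ih (m - 1) (by omega) N' (u - 1) (by omega) (flip X (ε (Sum.inr d))) HR _ ?_
        (fun q hq => List.mem_cons_of_mem _ (h2 q hq)) ?_ ?_ (by omega)).mono (by omega)
      · intro d' hd'
        rw [hinr _ (fun h => hd' (by rw [h]; exact hdP))]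
        exact h1 d' hd'
      · intro q hq
        obtain ⟨Y, t, hq1, hq2, hq3, hq4, hq5⟩ := h3 q hq
        have hne : ∀ d', ε (Sum.inr d') ∈ t → d' ≠ d := by
          intro d' hd' h
          subst h
          exact hq5 _ hdP hd' hda
        refine ⟨Y, t, List.mem_cons_of_mem _ hq1, hq2, hq3, fun d' hd' => ?_,
          fun d' hd'P hd' => ?_⟩
        · rw [hinr _ (hne d' hd')]
          exact hq4 d' hd'
        · rw [hinr _ (hne d' hd')]
          exact hq5 d' hd'P hd'
      · simp_rw [hinl]
        exact h4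
    · have hA' : ∀ d ∈ P, ε (Sum.inr d) ∈ s → X (ε (Sum.inr d)) ≠ a d := fun d hdP hds hda =>
        hA ⟨d, hds, hdP, hda⟩
      by_cases hrs : sA = ∅
      · rcases hend H X s h2 h1 hA' (fun i hi => by
          have := (hsA i).2 hi
          rw [hrs] at this
          simp at this) hs with h | ⟨d, hd, hd'⟩
        · exact absurd h hs0
        · exact ⟨d, hd, hd'.mono (by omega)⟩
      · have hN : N' ≠ 0 := by
          rintro rfl
          exact hrs (h4 _ hcomp)
        obtain ⟨N'', rfl⟩ := Nat.exists_eq_succ_of_ne_zero hN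
        rcases h4 _ hcomp with h | ⟨e, he, hw⟩
        · exact absurd h hrs
        refine ⟨ε (Sum.inl e), (hsA e).1 he, ?_⟩
        have hfl : ∀ j, j ≠ Sum.inl e → flip X (ε (Sum.inl e)) (ε j) = X (ε j) := fun j hj =>
          flip_ne _ (fun h => hj (ε.injective h))
        have hinr : ∀ d', flip X (ε (Sum.inl e)) (ε (Sum.inr d')) = X (ε (Sum.inr d')) :=
          fun d' => hfl _ (fun h' => by cases h')
        have hinl : (fun i => flip X (ε (Sum.inl e)) (ε (Sum.inl i))) =
            flip (fun i => X (ε (Sum.inl i))) e := by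
          funext i
          by_cases h : i = e
          · subst h
            rw [flip_self, flip_self]
          · rw [hfl _ (fun h' => h (Sum.inl.inj h')), flip_ne _ h]
        refine (ih (m - 1) (by omega) N'' u (by omega) (flip X (ε (Sum.inl e)))
          ((fun i => X (ε (Sum.inl i)), sA) :: HR) _ ?_
          (fun q hq => List.mem_cons_of_mem _ (h2 q hq)) ?_ ?_ ?_).mono (by omega)
        · intro d hd
          rw [hinr]
          exact h1 d hd
        · intro q hq
          rcases List.mem_cons.1 hq with rfl | hq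
          · refine ⟨X, s, List.mem_cons_self, fun _ => rfl, fun i hi => (hsA i).2 hi,
              fun d _ => hinr d, fun d hdP hd => ?_⟩
            rw [hinr]
            exact hA' d hdP hd
          · obtain ⟨Y, t, hq1, hq2, hq3, hq4, hq5⟩ := h3 q hq
            refine ⟨Y, t, List.mem_cons_of_mem _ hq1, hq2, hq3, fun d hd => ?_, fun d hdP hd => ?_⟩
            · rw [hinr]
              exact hq4 d hd
            · rw [hinr]
              exact hq5 d hdP hd
        · rw [hinl]
          exact hw
        · simp_rw [hinr]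
          exact h5

end core

variable {R K : Type} [DecidableEq R] [DecidableEq K]

/-- The macro game with costs: at most `r` runs with total cost at most `v` are enough from the vertex
`a` and after the records `E`. The rule chooses a set `J` of directions, the cost of the run is
`w J.card`, and a set `P` of directions which may be crossed once; the adversary chooses the vertex `b`
reached and the set `O` of improving directions there. -/
def MacV (w : ℕ → ℕ) : ℕ → ℕ → List ((K → Bool) × Finset K) → (K → Bool) → Prop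
  | 0, _, E, a => ∀ O, ¬ Comp E a O
  | r + 1, v, E, a => ∃ (J P : Finset K) (v' : ℕ), w J.card + v' ≤ v ∧
      ∀ (b : K → Bool) (O : Finset K), (∀ d, d ∉ J → d ∉ P → b d = a d) →
        (∀ d ∈ P, d ∈ O → b d ≠ a d) → (∀ d ∈ J, d ∉ O) → Comp E b O →
          O = ∅ ∨ ∃ d ∈ O, MacV w r v' ((b, O) :: E) (flip b d)

omit [DecidableEq R] [DecidableEq K] in
theorem Emb.comp' {E : List ((K → Bool) × Finset K)} {H : List ((R ⊕ K → Bool) × Finset (R ⊕ K))}
    (h : Emb E H) {X : R ⊕ K → Bool} {s : Finset (R ⊕ K)} (hs : Comp H X s) :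
    Comp E (fun d => X (Sum.inr d)) s.toRight := by
  have hX : X = join (fun i => X (Sum.inl i)) (fun d => X (Sum.inr d)) := by
    funext i
    rcases i with i | i <;> rfl
  rw [hX] at hs
  exact h.comp hs

/-- the equivalence for a run on `R` and `J` -/
def splitE (R : Type) {K : Type} [DecidableEq K] (J : Finset K) :
    (R ⊕ {d // d ∈ J}) ⊕ {d // ¬ d ∈ J} ≃ R ⊕ K :=
  (Equiv.sumAssoc _ _ _).trans (Equiv.sumCongr (Equiv.refl R) (Equiv.sumCompl fun d => d ∈ J))

/-- **Soundness of the macro game with costs.** -/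
theorem macV_sound [Fintype K] {w N : ℕ → ℕ} {θ : ℝ} {V : ℕ} (hθ : 0 ≤ θ)
    (hN : ∀ J : Finset K, w J.card ≤ V → WinAll (R ⊕ {d // d ∈ J}) (N J.card))
    (hw : ∀ J : Finset K, w J.card ≤ V →
      (N J.card + Fintype.card K + 1 : ℝ) ≤ θ * w J.card) :
    ∀ (r v : ℕ), v ≤ V → ∀ (E : List ((K → Bool) × Finset K)) (X : R ⊕ K → Bool)
      (H : List ((R ⊕ K → Bool) × Finset (R ⊕ K))), MacV w r v E (fun d => X (Sum.inr d)) →
        Emb E H → Win ⌊θ * v⌋₊ H X := by
  intro r
  induction r with
  | zero =>
    intro v _ E X H hm hE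
    apply Win.mono (Nat.zero_le _)
    intro s hs
    exact absurd (hE.comp' hs) (hm _)
  | succ r ih =>
    intro v hvV E X H hm hE
    obtain ⟨J, P, v', hv, hP⟩ := hm
    have hJV : w J.card ≤ V := by omega
    have hv'V : v' ≤ V := by omega
    have hbud : ⌊θ * v'⌋₊ + 1 + (N J.card + Fintype.card K) ≤ ⌊θ * v⌋₊ := by
      apply Nat.le_floor
      have h1 : (⌊θ * v'⌋₊ : ℝ) ≤ θ * v' := Nat.floor_le (by positivity)
      have h2 := hw J hJV
      have h3 : ((w J.card + v' : ℕ) : ℝ) ≤ v := by exact_mod_cast hv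
      push_cast at h3 ⊢
      nlinarith
    refine Win.mono hbud ?_
    refine run_core (splitE R J) (H0 := H) (a := fun d => X (Sum.inr d.1))
      (P := P.subtype fun d => ¬ d ∈ J) ?_ _ (N J.card) (Fintype.card K) rfl X [] H
      (fun d _ => rfl) (fun _ h => h) (by simp) (hN J hJV _) ?_
    · intro H' Y s hH hY1 hY2 hY3 hs
      have hR : ∀ i : R, Sum.inl i ∉ s := fun i => hY3 (Sum.inl i)
      have hJ : ∀ d ∈ J, Sum.inr d ∉ s := fun d hd => hY3 (Sum.inr ⟨d, hd⟩)
      have hE' : Emb E H' := by
        intro p hp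
        obtain ⟨z, hz⟩ := hE p hp
        exact ⟨z, hH _ hz⟩
      have hsr : s = (∅ : Finset R).disjSum s.toRight := by
        ext i
        rcases i with i | i
        · simp [hR i]
        · simp
      have hc1 : ∀ d, d ∉ J → d ∉ P → Y (Sum.inr d) = X (Sum.inr d) := fun d hdJ hdP =>
        hY1 ⟨d, hdJ⟩ (by simpa using hdP)
      have hc2 : ∀ d ∈ P, d ∈ s.toRight → Y (Sum.inr d) ≠ X (Sum.inr d) := by
        intro d hdP hds
        have hdJ : ¬ d ∈ J := fun h => hJ d h (mem_toRight.1 hds)
        exact hY2 ⟨d, hdJ⟩ (by simpa using hdP) (mem_toRight.1 hds)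
      have hc3 : ∀ d ∈ J, d ∉ s.toRight := fun d hd hds => hJ d hd (mem_toRight.1 hds)
      rcases hP (fun d => Y (Sum.inr d)) s.toRight hc1 hc2 hc3 (hE'.comp' hs) with
        h | ⟨d, hd, hd'⟩
      · left
        rw [hsr, h]
        simp
      · right
        refine ⟨Sum.inr d, mem_toRight.1 hd, ih v' hv'V ((fun d' => Y (Sum.inr d'), s.toRight) :: E)
          (flip Y (Sum.inr d)) ((Y, s) :: H') ?_ ?_⟩
        · have h1 : (fun d' => flip Y (Sum.inr d) (Sum.inr d')) =
              flip (fun d' => Y (Sum.inr d')) d := by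
            funext d'
            by_cases h : d' = d
            · subst h
              rw [flip_self, flip_self]
            · rw [flip_ne _ (fun h' => h (Sum.inr.inj h')), flip_ne _ h]
          rw [h1]
          exact hd'
        · intro q hq
          rcases List.mem_cons.1 hq with rfl | hq
          · refine ⟨fun i => Y (Sum.inl i), ?_⟩
            have h2 : Y = join (fun i => Y (Sum.inl i)) (fun d => Y (Sum.inr d)) := by
              funext i
              rcases i with i | i <;> rfl
            rw [← hsr, ← h2]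
            exact List.mem_cons_self
          · exact hE'.cons _ q hq
    · exact (card_le_univ _).trans (Fintype.card_subtype_le _)

end Pool.Agent.H93.DP
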